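import Pool.Agent.U529.BL.Lin

/-! The largest prime factor of `m ^ 2 + l ^ 2`. -/

set_option autoImplicit false

namespace Pool.Agent.U529.BL

open Finset Filter Topology

open Classical in
/-- the number of the `m ≤ n` for which `m ^ 2 + l ^ 2` has a prime factor at least `z` -/
noncomputable def BC (l n : ℕ) (z : ℝ) : ℕ :=
  ((Icc 1 n).filter (fun m : ℕ => ∃ p : ℕ, p.Prime ∧ p ∣ m ^ 2 + l ^ 2 ∧ z ≤ p)).card

theorem BC_le (l n : ℕ) (z : ℝ) : BC l n z ≤ n := by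
  classical
  unfold BC
  refine (card_le_card (filter_subset _ _)).trans ?_
  rw [Nat.card_Icc]
  omega

theorem BC_anti (l n : ℕ) (z w : ℝ) (h : z ≤ w) : BC l n w ≤ BC l n z := by
  classical
  unfold BC
  apply card_le_card
  intro m hm
  rw [mem_filter] at hm ⊢
  obtain ⟨h1, p, h2, h3, h4⟩ := hm
  exact ⟨h1, p, h2, h3, h.trans h4⟩

theorem val_le (m l n : ℕ) (hm : m ≤ n) (hl : l ≤ n) : ((m ^ 2 + l ^ 2 : ℕ) : ℝ) ≤ 2 * (n : ℝ) ^ 2 := by
  have h1 : m ^ 2 + l ^ 2 ≤ 2 * n ^ 2 := by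
    have h5 : m ^ 2 ≤ n ^ 2 := Nat.pow_le_pow_left hm 2
    have h6 : l ^ 2 ≤ n ^ 2 := Nat.pow_le_pow_left hl 2
    omega
  exact_mod_cast h1

theorem log_val_le (m l n : ℕ) (hn : 2 ≤ n) (hl1 : 1 ≤ l) (hm : m ≤ n) (hl : l ≤ n) :
    Real.log ((m ^ 2 + l ^ 2 : ℕ) : ℝ) ≤ 2 * Real.log n + Real.log 2 := by
  have hn0 : (0 : ℝ) < n := by exact_mod_cast (by omega : 0 < n)
  have h1 : 2 * Real.log n + Real.log 2 = Real.log (2 * (n : ℝ) ^ 2) := by
    rw [Real.log_mul (by norm_num) (by positivity), Real.log_pow]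
    push_cast
    ring
  rw [h1]
  apply Real.log_le_log _ (val_le m l n hm hl)
  have : 0 < m ^ 2 + l ^ 2 := by positivity
  exact_mod_cast this

open Classical in
/-- the sum over the large primes -/
noncomputable def RR1 (τ : ℝ) (n l : ℕ) : ℝ :=
  ∑ m ∈ Icc 1 n, ∑ p ∈ (m ^ 2 + l ^ 2).primeFactors.filter (fun p : ℕ => (n : ℝ) ^ τ ≤ p), Real.log p

theorem S1_split (τ : ℝ) (n l : ℕ) (hn : 2 ≤ n) (hl : 1 ≤ l) (hτ : τ ≤ 2) :
    ∑ m ∈ Icc 1 n, ∑ p ∈ (m ^ 2 + l ^ 2).primeFactors, Real.log p = LS 0 τ n l + RR1 τ n l := by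
  classical
  have h1 : LS 0 τ n l = ∑ m ∈ Icc 1 n, ∑ p ∈ (m ^ 2 + l ^ 2).primeFactors.filter (fun p : ℕ => ¬ (n : ℝ) ^ τ ≤ p), Real.log p := by
    unfold LS
    have h2 : ∀ p ∈ Pn n 0 τ, Real.log p * (Aq n l p : ℝ) =
        ∑ m ∈ Icc 1 n, (if p ∣ m ^ 2 + l ^ 2 then Real.log p else 0) := by
      intro p _
      unfold Aq
      rw [← sum_filter, sum_const, nsmul_eq_mul, mul_comm]
    rw [sum_congr rfl h2, sum_comm]
    apply sum_congr rfl
    intro m _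
    rw [← sum_filter]
    apply sum_congr _ (fun _ _ => rfl)
    ext p
    rw [mem_filter, mem_filter, mem_Pn n 0 τ hn hτ, Nat.mem_primeFactors, Real.rpow_zero, not_le]
    have h0 : m ^ 2 + l ^ 2 ≠ 0 := by positivity
    constructor
    · rintro ⟨⟨h3, h4, h5⟩, h6⟩
      exact ⟨⟨h3, h6, h0⟩, h5⟩
    · rintro ⟨⟨h3, h6, -⟩, h5⟩
      exact ⟨⟨h3, by exact_mod_cast h3.one_le, h5⟩, h6⟩
  rw [h1]
  unfold RR1
  rw [← sum_add_distrib]
  apply sum_congr rfl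
  intro m _
  have h5 := sum_filter_add_sum_filter_not (m ^ 2 + l ^ 2).primeFactors (fun p : ℕ => (n : ℝ) ^ τ ≤ p)
    (fun p : ℕ => Real.log p)
  linarith

theorem RR1_le (τ : ℝ) (n l : ℕ) (hn : 2 ≤ n) (hl : 1 ≤ l) (hln : l ≤ n) :
    RR1 τ n l ≤ BC l n ((n : ℝ) ^ τ) * (2 * Real.log n + Real.log 2) := by
  classical
  unfold RR1 BC
  rw [← nsmul_eq_mul, ← sum_const, sum_filter]
  apply sum_le_sum
  intro m hm
  rw [mem_Icc] at hm
  have h0 : 0 < m ^ 2 + l ^ 2 := by positivity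
  split_ifs with h
  · calc ∑ p ∈ (m ^ 2 + l ^ 2).primeFactors.filter (fun p : ℕ => (n : ℝ) ^ τ ≤ p), Real.log p ≤
          ∑ p ∈ (m ^ 2 + l ^ 2).primeFactors, Real.log p := by
          apply sum_le_sum_of_subset_of_nonneg (filter_subset _ _)
          intro p _ _
          exact Real.log_natCast_nonneg p
      _ ≤ Real.log ((m ^ 2 + l ^ 2 : ℕ) : ℝ) := sum_log_le _ h0
      _ ≤ _ := log_val_le m l n hn hl hm.2 hln
  · apply le_of_eq
    apply sum_eq_zero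
    intro p hp
    rw [mem_filter, Nat.mem_primeFactors] at hp
    exact absurd ⟨p, hp.1.1, hp.1.2.1, hp.2⟩ h

theorem RR1_ge (τ : ℝ) (n l : ℕ) (hn : 2 ≤ n) (hl : 1 ≤ l) :
    BC l n ((n : ℝ) ^ τ) * (τ * Real.log n) ≤ RR1 τ n l := by
  classical
  have hn0 : (0 : ℝ) < n := by exact_mod_cast (by omega : 0 < n)
  unfold RR1 BC
  rw [← nsmul_eq_mul, ← sum_const, sum_filter]
  apply sum_le_sum
  intro m hm
  rw [mem_Icc] at hm
  have h0 : m ^ 2 + l ^ 2 ≠ 0 := by positivity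
  split_ifs with h
  · obtain ⟨p, h1, h2, h3⟩ := h
    rw [← Real.log_rpow hn0]
    calc Real.log ((n : ℝ) ^ τ) ≤ Real.log p := Real.log_le_log (by positivity) h3
      _ ≤ _ := single_le_sum (f := fun p : ℕ => Real.log p) (fun q _ => Real.log_natCast_nonneg q)
        (mem_filter.2 ⟨Nat.mem_primeFactors.2 ⟨h1, h2, h0⟩, h3⟩)
  · apply sum_nonneg
    intro p _
    exact Real.log_natCast_nonneg p

theorem T1_m (a b : ℝ) (n l : ℕ) : T1 a b n l =
    ∑ m ∈ Icc 1 n, (((Pn n a b).filter (fun p => p ∣ m ^ 2 + l ^ 2)).card : ℝ) := by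
  classical
  unfold T1
  have h2 : ∀ p ∈ Pn n a b, (Aq n l p : ℝ) = ∑ m ∈ Icc 1 n, (if p ∣ m ^ 2 + l ^ 2 then (1 : ℝ) else 0) := by
    intro p _
    unfold Aq
    rw [card_filter]
    push_cast
    rfl
  rw [sum_congr rfl h2, sum_comm]
  apply sum_congr rfl
  intro m _
  rw [card_filter]
  push_cast
  rfl

/-- at most one large prime factor -/
theorem T1_add (θ τ : ℝ) (n l : ℕ) (hn : 2 ≤ n) (hl : 1 ≤ l) (hln : l ≤ n) (hθτ : θ ≤ τ) (hτ : τ ≤ 2)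
    (hbig : 2 * (n : ℝ) ^ 2 < ((n : ℝ) ^ θ) ^ 2) :
    T1 θ τ n l + BC l n ((n : ℝ) ^ τ) ≤ BC l n ((n : ℝ) ^ θ) := by
  classical
  have hn1 : (1 : ℝ) ≤ n := by exact_mod_cast (by omega : 1 ≤ n)
  have hpow := Real.rpow_le_rpow_of_exponent_le hn1 hθτ
  rw [T1_m]
  unfold BC
  rw [card_filter, card_filter]
  push_cast
  rw [← sum_add_distrib]
  apply sum_le_sum
  intro m hm
  rw [mem_Icc] at hm
  have h0 : 0 < m ^ 2 + l ^ 2 := by positivity
  -- two different prime factors cannot both be large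
  have huniq : ∀ p q : ℕ, p.Prime → q.Prime → p ∣ m ^ 2 + l ^ 2 → q ∣ m ^ 2 + l ^ 2 →
      (n : ℝ) ^ θ ≤ p → (n : ℝ) ^ θ ≤ q → p = q := by
    intro p q hp hq hpd hqd hpb hqb
    by_contra hpq
    have h1 : p * q ∣ m ^ 2 + l ^ 2 := ((Nat.coprime_primes hp hq).2 hpq).mul_dvd_of_dvd_of_dvd hpd hqd
    have h2 : ((p * q : ℕ) : ℝ) ≤ ((m ^ 2 + l ^ 2 : ℕ) : ℝ) := by exact_mod_cast Nat.le_of_dvd h0 h1
    have h3 := val_le m l n hm.2 hln
    have h4 : ((n : ℝ) ^ θ) ^ 2 ≤ ((p * q : ℕ) : ℝ) := by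
      push_cast
      rw [sq]
      exact mul_le_mul hpb hqb (by positivity) (by positivity)
    linarith
  set S := (Pn n θ τ).filter (fun p => p ∣ m ^ 2 + l ^ 2) with hS
  have hSm : ∀ p ∈ S, p.Prime ∧ (n : ℝ) ^ θ ≤ p ∧ (p : ℝ) < (n : ℝ) ^ τ ∧ p ∣ m ^ 2 + l ^ 2 := by
    intro p hp
    rw [hS, mem_filter, mem_Pn n θ τ hn hτ] at hp
    exact ⟨hp.1.1, hp.1.2.1, hp.1.2.2, hp.2⟩
  by_cases hB : ∃ p : ℕ, p.Prime ∧ p ∣ m ^ 2 + l ^ 2 ∧ (n : ℝ) ^ τ ≤ p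
  · rw [if_pos hB]
    obtain ⟨p, hp1, hp2, hp3⟩ := hB
    have hA : ∃ p : ℕ, p.Prime ∧ p ∣ m ^ 2 + l ^ 2 ∧ (n : ℝ) ^ θ ≤ p := ⟨p, hp1, hp2, hpow.trans hp3⟩
    rw [if_pos hA]
    have hS0 : S = ∅ := by
      rw [eq_empty_iff_forall_notMem]
      intro q hq
      obtain ⟨h1, h2, h3, h4⟩ := hSm q hq
      have := huniq p q hp1 h1 hp2 h4 (hpow.trans hp3) h2
      rw [← this] at h3
      linarith
    rw [hS0, card_empty]
    norm_num
  · rw [if_neg hB, add_zero]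
    rcases S.eq_empty_or_nonempty with h1 | ⟨q, hq⟩
    · rw [h1, card_empty]
      split_ifs <;> norm_num
    · obtain ⟨h1, h2, h3, h4⟩ := hSm q hq
      have hA : ∃ p : ℕ, p.Prime ∧ p ∣ m ^ 2 + l ^ 2 ∧ (n : ℝ) ^ θ ≤ p := ⟨q, h1, h4, h2⟩
      rw [if_pos hA]
      have h5 : S.card ≤ 1 := by
        rw [card_le_one]
        intro a ha b hb
        obtain ⟨a1, a2, a3, a4⟩ := hSm a ha
        obtain ⟨b1, b2, b3, b4⟩ := hSm b hb
        exact huniq a b a1 b1 a4 b4 a2 b2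
      exact_mod_cast h5

theorem BC_le_T1 (θ τ : ℝ) (n l : ℕ) (hn : 2 ≤ n) (hτ : τ ≤ 2) :
    (BC l n ((n : ℝ) ^ θ) : ℝ) ≤ T1 θ τ n l + BC l n ((n : ℝ) ^ τ) := by
  classical
  rw [T1_m]
  unfold BC
  rw [card_filter, card_filter]
  push_cast
  rw [← sum_add_distrib]
  apply sum_le_sum
  intro m _
  by_cases hB : ∃ p : ℕ, p.Prime ∧ p ∣ m ^ 2 + l ^ 2 ∧ (n : ℝ) ^ τ ≤ p
  · rw [if_pos hB]
    have : (0 : ℝ) ≤ (((Pn n θ τ).filter (fun p => p ∣ m ^ 2 + l ^ 2)).card : ℝ) := Nat.cast_nonneg _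
    split_ifs <;> linarith
  · rw [if_neg hB, add_zero]
    split_ifs with hA
    · obtain ⟨p, h1, h2, h3⟩ := hA
      have h4 : p ∈ (Pn n θ τ).filter (fun p => p ∣ m ^ 2 + l ^ 2) := by
        rw [mem_filter, mem_Pn n θ τ hn hτ]
        refine ⟨⟨h1, h3, ?_⟩, h2⟩
        by_contra hc
        push Not at hc
        exact hB ⟨p, h1, h2, hc⟩
      have h5 : 1 ≤ ((Pn n θ τ).filter (fun p => p ∣ m ^ 2 + l ^ 2)).card := card_pos.2 ⟨p, h4⟩
      exact_mod_cast h5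
    · exact Nat.cast_nonneg _

/-- the number of the values with a prime factor at least `n ^ τ` -/
theorem H_bounds (τ e : ℝ) (n l : ℕ) (hn : 2 ≤ n) (hl : 1 ≤ l) (hln : l ≤ n) (he : 0 < e) (hτ1 : 1 ≤ τ) (hτ2 : τ ≤ 2)
    (h1 : |LS 0 τ n l - τ * (n * Real.log n)| ≤ e * (n * Real.log n))
    (h2 : (2 - e) * (n * Real.log n) ≤ ∑ m ∈ Icc 1 n, ∑ p ∈ (m ^ 2 + l ^ 2).primeFactors, Real.log p)
    (h3 : Real.log 2 ≤ e * Real.log n) :
    (1 - τ / 2 - 3 / 2 * e) * n ≤ BC l n ((n : ℝ) ^ τ) ∧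
      (BC l n ((n : ℝ) ^ τ) : ℝ) ≤ ((2 - τ) / τ + 2 * e) * n := by
  have hnr : (2 : ℝ) ≤ n := by exact_mod_cast hn
  have hn0 : (0 : ℝ) < n := by linarith
  have hlog : 0 < Real.log n := Real.log_pos (by linarith)
  obtain ⟨g1, g2⟩ := abs_le.1 h1
  have hs := S1_split τ n l hn hl hτ2
  have hr1 := RR1_le τ n l hn hl hln
  have hr2 := RR1_ge τ n l hn hl
  set H : ℝ := (BC l n ((n : ℝ) ^ τ) : ℝ) with hH
  have hHn : H ≤ n := by rw [hH]; exact_mod_cast BC_le l n _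
  have hH0 : 0 ≤ H := Nat.cast_nonneg _
  have hup : ∑ m ∈ Icc 1 n, ∑ p ∈ (m ^ 2 + l ^ 2).primeFactors, Real.log p ≤ n * (2 * Real.log n + Real.log 2) := by
    calc ∑ m ∈ Icc 1 n, ∑ p ∈ (m ^ 2 + l ^ 2).primeFactors, Real.log p ≤
          ∑ _m ∈ Icc 1 n, (2 * Real.log n + Real.log 2) := by
          apply sum_le_sum
          intro m hm
          rw [mem_Icc] at hm
          have h0 : 0 < m ^ 2 + l ^ 2 := by positivity
          exact (sum_log_le _ h0).trans (log_val_le m l n hn hl hm.2 hln)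
      _ = _ := by
          rw [sum_const, Nat.card_Icc, nsmul_eq_mul]
          norm_num
  have hl2 : 0 ≤ Real.log 2 := Real.log_nonneg (by norm_num)
  constructor
  · have h4 : (2 - τ - 3 * e) * (n * Real.log n) ≤ 2 * (H * Real.log n) := by
      have h5 : H * Real.log 2 ≤ n * (e * Real.log n) :=
        mul_le_mul hHn h3 hl2 hn0.le
      have h6 : H * (2 * Real.log n + Real.log 2) = 2 * (H * Real.log n) + H * Real.log 2 := by ring
      have h7 : (n : ℝ) * (e * Real.log n) = e * (n * Real.log n) := by ring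
      rw [h6] at hr1
      rw [h7] at h5
      linarith
    have h8 : ((1 - τ / 2 - 3 / 2 * e) * n) * Real.log n ≤ H * Real.log n := by
      have h9 : ((1 - τ / 2 - 3 / 2 * e) * n) * Real.log n = (2 - τ - 3 * e) * (n * Real.log n) / 2 := by ring
      rw [h9]
      linarith
    exact le_of_mul_le_mul_right h8 hlog
  · have h4 : H * (τ * Real.log n) ≤ (2 - τ + 2 * e) * (n * Real.log n) := by
      have h5 : (n : ℝ) * Real.log 2 ≤ n * (e * Real.log n) := mul_le_mul_of_nonneg_left h3 hn0.le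
      have h7 : (n : ℝ) * (e * Real.log n) = e * (n * Real.log n) := by ring
      rw [h7] at h5
      linarith
    have h8 : (H * τ) * Real.log n ≤ ((2 - τ + 2 * e) * n) * Real.log n := by linarith
    have h9 := le_of_mul_le_mul_right h8 hlog
    have hτ0 : 0 < τ := by linarith
    have h10 : H ≤ ((2 - τ + 2 * e) * n) / τ := (le_div_iff₀ hτ0).2 h9
    refine h10.trans ?_
    have h11 : ((2 - τ + 2 * e) * n) / τ = ((2 - τ) / τ + 2 * e / τ) * n := by ring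
    rw [h11]
    apply mul_le_mul_of_nonneg_right _ hn0.le
    have h12 : 2 * e / τ ≤ 2 * e := div_le_self (by linarith) hτ1
    linarith

open Classical in
/-- **The largest prime factor.** -/
theorem lpf (μ θ ε : ℝ) (hμ0 : 0 < μ) (hμ1 : μ < 1) (hθ1 : 1 ≤ θ) (hθ2 : θ < 1 + μ) (hε : 0 < ε) :
    FE μ (fun n l => ¬ ((Real.log ((1 + μ) / θ) + (1 - μ) / 2 - ε) * n ≤ BC l n ((n : ℝ) ^ θ) ∧
      (BC l n ((n : ℝ) ^ θ) : ℝ) ≤ (Real.log ((1 + μ) / θ) + (1 - μ) / (1 + μ) + ε) * n)) := by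
  have hθ0 : 0 < θ := by linarith
  -- choice of τ
  obtain ⟨τ, hτ1, hτ2, ha, hb⟩ : ∃ τ : ℝ, θ < τ ∧ τ < 1 + μ ∧
      Real.log ((1 + μ) / θ) + (1 - μ) / 2 - ε / 4 < Real.log (τ / θ) + (1 - τ / 2) ∧
      Real.log (τ / θ) + (2 - τ) / τ < Real.log ((1 + μ) / θ) + (1 - μ) / (1 + μ) + ε / 4 := by
    have hne : (1 + μ) ≠ 0 := by linarith
    have hc1 : ContinuousAt (fun t : ℝ => Real.log (t / θ) + (1 - t / 2)) (1 + μ) := by
      apply ContinuousAt.add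
      · apply ContinuousAt.log (by fun_prop)
        exact (div_pos (by linarith) hθ0).ne'
      · fun_prop
    have hc2 : ContinuousAt (fun t : ℝ => Real.log (t / θ) + (2 - t) / t) (1 + μ) := by
      apply ContinuousAt.add
      · apply ContinuousAt.log (by fun_prop)
        exact (div_pos (by linarith) hθ0).ne'
      · exact ContinuousAt.div (by fun_prop) continuousAt_id hne
    have h1 : ∀ᶠ t in 𝓝[<] (1 + μ), Real.log ((1 + μ) / θ) + (1 - μ) / 2 - ε / 4 < Real.log (t / θ) + (1 - t / 2) :=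
      (hc1.eventually (lt_mem_nhds (by
        show _ < Real.log ((1 + μ) / θ) + (1 - (1 + μ) / 2)
        linarith))).filter_mono nhdsWithin_le_nhds
    have h2 : ∀ᶠ t in 𝓝[<] (1 + μ), Real.log (t / θ) + (2 - t) / t < Real.log ((1 + μ) / θ) + (1 - μ) / (1 + μ) + ε / 4 :=
      (hc2.eventually (gt_mem_nhds (by
        show Real.log ((1 + μ) / θ) + (2 - (1 + μ)) / (1 + μ) < _
        have : (2 - (1 + μ)) / (1 + μ) = (1 - μ) / (1 + μ) := by ring_nf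
        rw [this]
        linarith))).filter_mono nhdsWithin_le_nhds
    have h3 : ∀ᶠ t in 𝓝[<] (1 + μ), t ∈ Set.Ioo θ (1 + μ) := Ioo_mem_nhdsLT hθ2
    obtain ⟨t, ht1, ht2, ht3⟩ := (h1.and (h2.and h3)).exists
    exact ⟨t, ht3.1, ht3.2, ht1, ht2⟩
  obtain ⟨θ', hθ'1, hθ'2, hc⟩ : ∃ θ' : ℝ, θ < θ' ∧ θ' < τ ∧
      Real.log ((1 + μ) / θ) + (1 - μ) / 2 - ε / 4 < Real.log (τ / θ') + (1 - τ / 2) := by
    have hc1 : ContinuousAt (fun t : ℝ => Real.log (τ / t) + (1 - τ / 2)) θ := by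
      apply ContinuousAt.add
      · apply ContinuousAt.log
        · exact ContinuousAt.div continuousAt_const continuousAt_id hθ0.ne'
        · exact (div_pos (by linarith) hθ0).ne'
      · fun_prop
    have h1 : ∀ᶠ t in 𝓝[>] θ, Real.log ((1 + μ) / θ) + (1 - μ) / 2 - ε / 4 < Real.log (τ / t) + (1 - τ / 2) :=
      (hc1.eventually (lt_mem_nhds ha)).filter_mono nhdsWithin_le_nhds
    have h3 : ∀ᶠ t in 𝓝[>] θ, t ∈ Set.Ioo θ τ := Ioo_mem_nhdsGT hτ1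
    obtain ⟨t, ht1, ht2⟩ := (h1.and h3).exists
    exact ⟨t, ht2.1, ht2.2, ht1⟩
  obtain ⟨μ', hμ'0, hμ'1, hμ'2⟩ : ∃ μ' : ℝ, 0 < μ' ∧ μ' < μ ∧ τ < 1 + μ' :=
    ⟨(μ + (τ - 1)) / 2, by linarith, by linarith, by linarith⟩
  obtain ⟨μ'', hμ''1, hμ''2⟩ : ∃ μ'' : ℝ, μ' < μ'' ∧ μ'' < μ := ⟨(μ' + μ) / 2, by linarith, by linarith⟩
  set e : ℝ := ε / 16 with he
  have he0 : 0 < e := by rw [he]; linarith
  have F1 := LS_law τ μ' e hμ'0 (by linarith) he0 (by linarith) hμ'2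
  have F2 := law1 θ' τ μ' e hμ'0 (by linarith) he0 (by linarith) hθ'2.le hμ'2
  have F3 := law1 θ τ μ'' e (by linarith) (by linarith) he0 hθ0 hτ1.le (by linarith)
  have F := FE.or hμ''2 (FE.or hμ''1 F1 F2) F3
  obtain ⟨N1, H1⟩ := S1_lower e he0
  have ev1 : ∀ᶠ n : ℕ in atTop, Real.log 2 * (1 / e) ≤ Real.log n :=
    (Real.tendsto_log_atTop.comp tendsto_natCast_atTop_atTop).eventually_ge_atTop _
  have ev2 : ∀ᶠ n : ℕ in atTop, (3 : ℝ) ≤ (n : ℝ) ^ (2 * (θ' - 1)) :=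
    ((tendsto_rpow_atTop (by linarith)).comp tendsto_natCast_atTop_atTop).eventually_ge_atTop _
  apply F.mono
  filter_upwards [ev1, ev2, eventually_ge_atTop 3, eventually_ge_atTop N1] with n e1 e2 e3 e4 l hl1 hl2 hbad
  by_contra hcon
  push Not at hcon
  obtain ⟨⟨g1, g2⟩, g3⟩ := hcon
  apply hbad
  have hnr : (3 : ℝ) ≤ n := by exact_mod_cast e3
  have hn0 : (0 : ℝ) < n := by linarith
  have hlog2 : Real.log 2 ≤ e * Real.log n := by
    rw [mul_one_div, div_le_iff₀ he0] at e1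
    linarith
  obtain ⟨b1, b2⟩ := H_bounds τ e n l (by omega) hl1 hl2 he0 (by linarith) (by linarith) g1 (H1 n e4 l hl1 hl2) hlog2
  have hbig : 2 * (n : ℝ) ^ 2 < ((n : ℝ) ^ θ') ^ 2 := by
    have h1 : ((n : ℝ) ^ θ') ^ 2 = (n : ℝ) ^ 2 * (n : ℝ) ^ (2 * (θ' - 1)) := by
      rw [← Real.rpow_natCast ((n : ℝ) ^ θ') 2, ← Real.rpow_mul hn0.le, ← Real.rpow_natCast (n : ℝ) 2,
        ← Real.rpow_add hn0]
      congr 1
      push_cast
      ring
    rw [h1]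
    have h2 : 0 < (n : ℝ) ^ 2 := by positivity
    nlinarith
  have h1 := T1_add θ' τ n l (by omega) hl1 hl2 hθ'2.le (by linarith) hbig
  have h2 : (BC l n ((n : ℝ) ^ θ') : ℝ) ≤ BC l n ((n : ℝ) ^ θ) := by
    exact_mod_cast BC_anti l n _ _ (Real.rpow_le_rpow_of_exponent_le (by linarith) hθ'1.le)
  have h3 := BC_le_T1 θ τ n l (by omega) (by linarith)
  have g2' := (abs_le.1 g2).1
  have g3' := (abs_le.1 g3).2
  constructor
  · calc (Real.log ((1 + μ) / θ) + (1 - μ) / 2 - ε) * n ≤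
          (Real.log (τ / θ') + (1 - τ / 2) - e - 3 / 2 * e) * n := by
          apply mul_le_mul_of_nonneg_right _ hn0.le
          linarith
      _ = (n * Real.log (τ / θ') - e * n) + (1 - τ / 2 - 3 / 2 * e) * n := by ring
      _ ≤ T1 θ' τ n l + BC l n ((n : ℝ) ^ τ) := by linarith
      _ ≤ _ := h1.trans h2
  · calc (BC l n ((n : ℝ) ^ θ) : ℝ) ≤ T1 θ τ n l + BC l n ((n : ℝ) ^ τ) := h3
      _ ≤ (n * Real.log (τ / θ) + e * n) + ((2 - τ) / τ + 2 * e) * n := by linarith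
      _ = (Real.log (τ / θ) + (2 - τ) / τ + e + 2 * e) * n := by ring
      _ ≤ _ := by
          apply mul_le_mul_of_nonneg_right _ hn0.le
          linarith

end Pool.Agent.U529.BL
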