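import Pool.Agent.U529.BL.Fam3

/-! Large prime factors in the two families. -/

set_option autoImplicit false

namespace Pool.Agent.U529.BL

open Finset Filter Topology

open Classical in
/-- the number of the `m` in the family for which `m ^ 2 + l ^ 2` has a prime factor at least `z` -/
noncomputable def BCL (l n : ℕ) (z : ℝ) : ℕ :=
  ((FL n l).filter (fun m : ℕ => ∃ p : ℕ, p.Prime ∧ p ∣ m ^ 2 + l ^ 2 ∧ z ≤ p)).card

theorem BCL_anti (l n : ℕ) (z w : ℝ) (h : z ≤ w) : BCL l n w ≤ BCL l n z := by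
  classical
  unfold BCL
  apply card_le_card
  intro m hm
  rw [mem_filter] at hm ⊢
  obtain ⟨h1, p, h2, h3, h4⟩ := hm
  exact ⟨h1, p, h2, h3, h.trans h4⟩

theorem TL_one (a b : ℝ) (n l : ℕ) : TL (fun _ : Fin 1 => a) (fun _ => b) n l =
    ∑ m ∈ FL n l, (((Pn n a b).filter (fun p => p ∣ m ^ 2 + l ^ 2)).card : ℝ) := by
  unfold TL
  simp only [univ_unique, Fin.default_eq_zero, prod_const, card_singleton, pow_one]
  exact sum_congr rfl (fun m _ => dI_sum _ _)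

theorem FL_mem {n l m : ℕ} (h : m ∈ FL n l) : 1 ≤ m ∧ m ≤ n := by
  have := FL_sub n l h
  rw [mem_filter, mem_Icc] at this
  exact this.1

theorem TL_le_BCL (θ τ : ℝ) (n l : ℕ) (hn : 2 ≤ n) (hl : 1 ≤ l) (hln : l ≤ n) (hτ : τ ≤ 2)
    (hbig : 2 * (n : ℝ) ^ 2 < ((n : ℝ) ^ θ) ^ 2) :
    TL (fun _ : Fin 1 => θ) (fun _ => τ) n l ≤ BCL l n ((n : ℝ) ^ θ) := by
  classical
  rw [TL_one]
  unfold BCL
  rw [card_filter]
  push_cast
  apply sum_le_sum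
  intro m hm'
  have hm := FL_mem hm'
  have h0 : 0 < m ^ 2 + l ^ 2 := by positivity
  have huniq : ∀ p q : ℕ, p.Prime → q.Prime → p ∣ m ^ 2 + l ^ 2 → q ∣ m ^ 2 + l ^ 2 →
      (n : ℝ) ^ θ ≤ p → (n : ℝ) ^ θ ≤ q → p = q := by
    intro p q hp hq hpd hqd hpb hqb
    by_contra hpq
    have h1 : p * q ∣ m ^ 2 + l ^ 2 := ((Nat.coprime_primes hp hq).2 hpq).mul_dvd_of_dvd_of_dvd hpd hqd
    have h2 : ((p * q : ℕ) : ℝ) ≤ ((m ^ 2 + l ^ 2 : ℕ) : ℝ) := by exact_mod_cast Nat.le_of_dvd h0 h1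
    have h3 := val_le m l n hm.2 hln
    have h4 : ((n : ℝ) ^ θ) ^ 2 ≤ ((p * q : ℕ) : ℝ) := by
      push_cast
      rw [sq]
      exact mul_le_mul hpb hqb (by positivity) (by positivity)
    linarith
  set S := (Pn n θ τ).filter (fun p => p ∣ m ^ 2 + l ^ 2) with hS
  have hSm : ∀ p ∈ S, p.Prime ∧ (n : ℝ) ^ θ ≤ p ∧ (p : ℝ) < (n : ℝ) ^ τ ∧ p ∣ m ^ 2 + l ^ 2 := by
    intro p hp
    rw [hS, mem_filter, mem_Pn n θ τ hn hτ] at hp
    exact ⟨hp.1.1, hp.1.2.1, hp.1.2.2, hp.2⟩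
  rcases S.eq_empty_or_nonempty with h1 | ⟨q, hq⟩
  · rw [h1, card_empty]
    split_ifs <;> norm_num
  · obtain ⟨h1, h2, h3, h4⟩ := hSm q hq
    have hA : ∃ p : ℕ, p.Prime ∧ p ∣ m ^ 2 + l ^ 2 ∧ (n : ℝ) ^ θ ≤ p := ⟨q, h1, h4, h2⟩
    rw [if_pos hA]
    have h5 : S.card ≤ 1 := by
      rw [card_le_one]
      intro a ha b hb
      obtain ⟨a1, a2, a3, a4⟩ := hSm a ha
      obtain ⟨b1, b2, b3, b4⟩ := hSm b hb
      exact huniq a b a1 b1 a4 b4 a2 b2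
    exact_mod_cast h5

theorem BCL_le (θ τ : ℝ) (n l : ℕ) (hn : 2 ≤ n) (hτ : τ ≤ 2) :
    (BCL l n ((n : ℝ) ^ θ) : ℝ) ≤ TL (fun _ : Fin 1 => θ) (fun _ => τ) n l + BC l n ((n : ℝ) ^ τ) := by
  classical
  rw [TL_one]
  have h1 : (((FL n l).filter (fun m : ℕ => ∃ p : ℕ, p.Prime ∧ p ∣ m ^ 2 + l ^ 2 ∧ (n : ℝ) ^ τ ≤ p)).card : ℝ) ≤
      BC l n ((n : ℝ) ^ τ) := by
    unfold BC
    apply Nat.cast_le.2
    apply card_le_card
    intro m hm
    rw [mem_filter] at hm ⊢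
    refine ⟨?_, hm.2⟩
    rw [mem_Icc]
    exact FL_mem hm.1
  refine le_trans ?_ (add_le_add_right h1 _)
  unfold BCL
  rw [card_filter, card_filter]
  push_cast
  rw [← sum_add_distrib]
  apply sum_le_sum
  intro m _
  by_cases hB : ∃ p : ℕ, p.Prime ∧ p ∣ m ^ 2 + l ^ 2 ∧ (n : ℝ) ^ τ ≤ p
  · rw [if_pos hB]
    have : (0 : ℝ) ≤ (((Pn n θ τ).filter (fun p => p ∣ m ^ 2 + l ^ 2)).card : ℝ) := Nat.cast_nonneg _
    split_ifs <;> linarith
  · rw [if_neg hB, add_zero]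
    split_ifs with hA
    · obtain ⟨p, h1, h2, h3⟩ := hA
      have h4 : p ∈ (Pn n θ τ).filter (fun p => p ∣ m ^ 2 + l ^ 2) := by
        rw [mem_filter, mem_Pn n θ τ hn hτ]
        refine ⟨⟨h1, h3, ?_⟩, h2⟩
        by_contra hc
        push Not at hc
        exact hB ⟨p, h1, h2, hc⟩
      have h5 : 1 ≤ ((Pn n θ τ).filter (fun p => p ∣ m ^ 2 + l ^ 2)).card := card_pos.2 ⟨p, h4⟩
      exact_mod_cast h5
    · exact Nat.cast_nonneg _

/-- the law for one prime in the families -/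
theorem law1L (a b μ ε : ℝ) (hμ0 : 0 < μ) (hμ1 : μ < 1) (hε : 0 < ε) (ha : 0 < a) (hab : a ≤ b) (hb : b < 1 + μ) :
    FE μ (fun n l => ε * n < |TL (fun _ : Fin 1 => a) (fun _ => b) n l - n / 2 * Real.log (b / a)|) := by
  have h := lawL 1 (fun _ => a) (fun _ => b) μ ε hμ0 hμ1 hε (fun _ => ha) (fun _ => hab)
    (fun i j hij => absurd (Subsingleton.elim i j) hij) (by simpa using hb)
  apply h.mono
  filter_upwards with n l _ _ h1
  simpa only [univ_unique, Fin.default_eq_zero, prod_const, card_singleton, pow_one] using h1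

/-- **Large prime factors in the families.** -/
theorem lpfL (μ θ ε : ℝ) (hμ0 : 0 < μ) (hμ1 : μ < 1) (hθ1 : 1 ≤ θ) (hθ2 : θ < 1 + μ) (hε : 0 < ε) :
    FE μ (fun n l => (BCL l n ((n : ℝ) ^ θ) : ℝ) < (Real.log ((1 + μ) / θ) / 2 - ε) * n ∨
      (Real.log ((1 + μ) / θ) / 2 + (1 - μ) / (1 + μ) + ε) * n < (BCL l n ((n : ℝ) ^ θ) : ℝ)) := by
  have hθ0 : 0 < θ := by linarith
  obtain ⟨τ, hτ1, hτ2, ha, hb⟩ : ∃ τ : ℝ, θ < τ ∧ τ < 1 + μ ∧
      Real.log ((1 + μ) / θ) / 2 - ε / 4 < Real.log (τ / θ) / 2 ∧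
      Real.log (τ / θ) / 2 + (2 - τ) / τ < Real.log ((1 + μ) / θ) / 2 + (1 - μ) / (1 + μ) + ε / 4 := by
    have hne : (1 + μ) ≠ 0 := by linarith
    have hc1 : ContinuousAt (fun t : ℝ => Real.log (t / θ) / 2) (1 + μ) := by
      apply ContinuousAt.div_const
      apply ContinuousAt.log (by fun_prop)
      exact (div_pos (by linarith) hθ0).ne'
    have hc2 : ContinuousAt (fun t : ℝ => Real.log (t / θ) / 2 + (2 - t) / t) (1 + μ) := by
      apply ContinuousAt.add hc1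
      exact ContinuousAt.div (by fun_prop) continuousAt_id hne
    have h1 : ∀ᶠ t in 𝓝[<] (1 + μ), Real.log ((1 + μ) / θ) / 2 - ε / 4 < Real.log (t / θ) / 2 :=
      (hc1.eventually (lt_mem_nhds (by
        show _ < Real.log ((1 + μ) / θ) / 2
        linarith))).filter_mono nhdsWithin_le_nhds
    have h2 : ∀ᶠ t in 𝓝[<] (1 + μ), Real.log (t / θ) / 2 + (2 - t) / t <
        Real.log ((1 + μ) / θ) / 2 + (1 - μ) / (1 + μ) + ε / 4 :=
      (hc2.eventually (gt_mem_nhds (by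
        show Real.log ((1 + μ) / θ) / 2 + (2 - (1 + μ)) / (1 + μ) < _
        have : (2 - (1 + μ)) / (1 + μ) = (1 - μ) / (1 + μ) := by ring_nf
        rw [this]
        linarith))).filter_mono nhdsWithin_le_nhds
    have h3 : ∀ᶠ t in 𝓝[<] (1 + μ), t ∈ Set.Ioo θ (1 + μ) := Ioo_mem_nhdsLT hθ2
    obtain ⟨t, ht1, ht2, ht3⟩ := (h1.and (h2.and h3)).exists
    exact ⟨t, ht3.1, ht3.2, ht1, ht2⟩
  obtain ⟨θ', hθ'1, hθ'2, hc⟩ : ∃ θ' : ℝ, θ < θ' ∧ θ' < τ ∧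
      Real.log ((1 + μ) / θ) / 2 - ε / 4 < Real.log (τ / θ') / 2 := by
    have hc1 : ContinuousAt (fun t : ℝ => Real.log (τ / t) / 2) θ := by
      apply ContinuousAt.div_const
      apply ContinuousAt.log
      · exact ContinuousAt.div continuousAt_const continuousAt_id hθ0.ne'
      · exact (div_pos (by linarith) hθ0).ne'
    have h1 : ∀ᶠ t in 𝓝[>] θ, Real.log ((1 + μ) / θ) / 2 - ε / 4 < Real.log (τ / t) / 2 :=
      (hc1.eventually (lt_mem_nhds ha)).filter_mono nhdsWithin_le_nhds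
    have h3 : ∀ᶠ t in 𝓝[>] θ, t ∈ Set.Ioo θ τ := Ioo_mem_nhdsGT hτ1
    obtain ⟨t, ht1, ht2⟩ := (h1.and h3).exists
    exact ⟨t, ht2.1, ht2.2, ht1⟩
  obtain ⟨μ', hμ'0, hμ'1, hμ'2⟩ : ∃ μ' : ℝ, 0 < μ' ∧ μ' < μ ∧ τ < 1 + μ' :=
    ⟨(μ + (τ - 1)) / 2, by linarith, by linarith, by linarith⟩
  obtain ⟨μ'', hμ''1, hμ''2⟩ : ∃ μ'' : ℝ, μ' < μ'' ∧ μ'' < μ := ⟨(μ' + μ) / 2, by linarith, by linarith⟩
  set e : ℝ := ε / 16 with he
  have he0 : 0 < e := by rw [he]; linarith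
  have F1 := LS_law τ μ' e hμ'0 (by linarith) he0 (by linarith) hμ'2
  have F2 := law1L θ' τ μ' e hμ'0 (by linarith) he0 (by linarith) hθ'2.le hμ'2
  have F3 := law1L θ τ μ'' e (by linarith) (by linarith) he0 hθ0 hτ1.le (by linarith)
  have F := FE.or hμ''2 (FE.or hμ''1 F1 F2) F3
  obtain ⟨N1, H1⟩ := S1_lower e he0
  have ev1 : ∀ᶠ n : ℕ in atTop, Real.log 2 * (1 / e) ≤ Real.log n :=
    (Real.tendsto_log_atTop.comp tendsto_natCast_atTop_atTop).eventually_ge_atTop _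
  have ev2 : ∀ᶠ n : ℕ in atTop, (3 : ℝ) ≤ (n : ℝ) ^ (2 * (θ' - 1)) :=
    ((tendsto_rpow_atTop (by linarith)).comp tendsto_natCast_atTop_atTop).eventually_ge_atTop _
  apply F.mono
  filter_upwards [ev1, ev2, eventually_ge_atTop 3, eventually_ge_atTop N1] with n e1 e2 e3 e4 l hl1 hl2 hbad
  by_contra hcon
  push Not at hcon
  obtain ⟨⟨g1, g2⟩, g3⟩ := hcon
  have hnr : (3 : ℝ) ≤ n := by exact_mod_cast e3
  have hn0 : (0 : ℝ) < n := by linarith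
  have hlog2 : Real.log 2 ≤ e * Real.log n := by
    rw [mul_one_div, div_le_iff₀ he0] at e1
    linarith
  obtain ⟨b1, b2⟩ := H_bounds τ e n l (by omega) hl1 hl2 he0 (by linarith) (by linarith) g1 (H1 n e4 l hl1 hl2) hlog2
  have hbig : 2 * (n : ℝ) ^ 2 < ((n : ℝ) ^ θ') ^ 2 := by
    have h1 : ((n : ℝ) ^ θ') ^ 2 = (n : ℝ) ^ 2 * (n : ℝ) ^ (2 * (θ' - 1)) := by
      rw [← Real.rpow_natCast ((n : ℝ) ^ θ') 2, ← Real.rpow_mul hn0.le, ← Real.rpow_natCast (n : ℝ) 2,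
        ← Real.rpow_add hn0]
      congr 1
      push_cast
      ring
    rw [h1]
    have h2 : 0 < (n : ℝ) ^ 2 := by positivity
    nlinarith
  have h1 := TL_le_BCL θ' τ n l (by omega) hl1 hl2 (by linarith) hbig
  have h2 : (BCL l n ((n : ℝ) ^ θ') : ℝ) ≤ BCL l n ((n : ℝ) ^ θ) := by
    exact_mod_cast BCL_anti l n _ _ (Real.rpow_le_rpow_of_exponent_le (by linarith) hθ'1.le)
  have h3 := BCL_le θ τ n l (by omega) (by linarith)
  have g2' := (abs_le.1 g2).1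
  have g3' := (abs_le.1 g3).2
  have k1 : (Real.log ((1 + μ) / θ) / 2 - ε) * n ≤ (Real.log (τ / θ') / 2 - e) * n := by
    apply mul_le_mul_of_nonneg_right _ hn0.le
    linarith
  have k2 : (Real.log (τ / θ) / 2 + (2 - τ) / τ + e + 2 * e) * n ≤
      (Real.log ((1 + μ) / θ) / 2 + (1 - μ) / (1 + μ) + ε) * n := by
    apply mul_le_mul_of_nonneg_right _ hn0.le
    linarith
  rcases hbad with hb1 | hb1
  · have : (Real.log (τ / θ') / 2 - e) * n = n / 2 * Real.log (τ / θ') - e * n := by ring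
    linarith
  · have : (Real.log (τ / θ) / 2 + (2 - τ) / τ + e + 2 * e) * n =
      (n / 2 * Real.log (τ / θ) + e * n) + ((2 - τ) / τ + 2 * e) * n := by ring
    linarith

end Pool.Agent.U529.BL
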