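import Pool.Agent.U529.BL.Lpf

/-! Smooth values of `m ^ 2 + l ^ 2`. -/

set_option autoImplicit false

namespace Pool.Agent.U529.BL

open Finset Filter Topology

open Classical in
/-- the number of the `m ≤ n` for which all prime factors of `m ^ 2 + l ^ 2` are at most `z` -/
noncomputable def SC (l n : ℕ) (z : ℝ) : ℕ :=
  ((Icc 1 n).filter (fun m : ℕ => ∀ p : ℕ, p.Prime → p ∣ m ^ 2 + l ^ 2 → (p : ℝ) ≤ z)).card

theorem SC_mono (l n : ℕ) (z w : ℝ) (h : z ≤ w) : SC l n z ≤ SC l n w := by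
  classical
  unfold SC
  apply card_le_card
  intro m hm
  rw [mem_filter] at hm ⊢
  exact ⟨hm.1, fun p h1 h2 => (hm.2 p h1 h2).trans h⟩

theorem dI_sum (P : Finset ℕ) (x : ℕ) : ∑ p ∈ P, dI x p = ((P.filter (fun p => p ∣ x)).card : ℝ) := by
  classical
  unfold dI
  rw [card_filter]
  push_cast
  rfl

/-- the number of the large prime factors -/
theorem card_large (n x : ℕ) (a : ℝ) (hn : 2 ≤ n) (ha : 0 < a) (hx : 0 < x) (hx2 : (x : ℝ) ≤ (n : ℝ) ^ (3 : ℝ)) (P : Finset ℕ)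
    (hP : ∀ p ∈ P, p.Prime ∧ (n : ℝ) ^ a ≤ p ∧ p ∣ x) : (P.card : ℝ) ≤ 3 / a := by
  have hnr : (2 : ℝ) ≤ n := by exact_mod_cast hn
  have hn0 : (0 : ℝ) < n := by linarith
  have h1 : ∏ p ∈ P, p ∣ x := by
    apply Finset.prod_primes_dvd
    · intro p hp
      exact (hP p hp).1.prime
    · intro p hp
      exact (hP p hp).2.2
  have h2 : ((∏ p ∈ P, p : ℕ) : ℝ) ≤ x := by exact_mod_cast Nat.le_of_dvd hx h1
  have h3 : ((n : ℝ) ^ a) ^ P.card ≤ ((∏ p ∈ P, p : ℕ) : ℝ) := by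
    push_cast
    rw [← prod_const]
    exact prod_le_prod (fun _ _ => by positivity) (fun p hp => (hP p hp).2.1)
  have h4 : ((n : ℝ) ^ a) ^ P.card = (n : ℝ) ^ (a * P.card) := by
    rw [← Real.rpow_natCast, ← Real.rpow_mul hn0.le]
  rw [h4] at h3
  have h5 : (n : ℝ) ^ (a * P.card) ≤ (n : ℝ) ^ (3 : ℝ) := h3.trans (h2.trans hx2)
  have h6 := (Real.rpow_le_rpow_left_iff (by linarith : (1 : ℝ) < n)).1 h5
  rw [le_div_iff₀ ha]
  linarith

theorem exps (μ e : ℝ) (_ : 0 < μ) (hμ1 : μ < 1) (he0 : 0 < e) (he1 : e ≤ μ / 2) :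
    ∃ (k : ℕ) (s h : ℝ), 0 < s ∧ 0 < h ∧ s * k = 1 + μ - e / 2 ∧ 1 ≤ k ∧ (k : ℝ) * ((k : ℝ) * h) ≤ e / 4 ∧
      s + k * h ≤ 1 - μ + e := by
  obtain ⟨k, hk⟩ := exists_nat_ge (3 / (1 - μ + e) + 1)
  have hpos : 0 < 1 - μ + e := by linarith
  have h3 : 0 < 3 / (1 - μ + e) := by positivity
  have hk1 : (1 : ℝ) ≤ k := by linarith
  have hk0 : (0 : ℝ) < k := by linarith
  have hk1' : 1 ≤ k := by exact_mod_cast hk1
  refine ⟨k, (1 + μ - e / 2) / k, e / (4 * (k * k)), div_pos (by linarith) hk0, by positivity, ?_, hk1', ?_, ?_⟩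
  · field_simp
  · apply le_of_eq
    field_simp
  · have h4 : (1 + μ - e / 2) / k + k * (e / (4 * (k * k))) = (1 + μ - e / 2 + e / 4) / k := by
      field_simp
    rw [h4, div_le_iff₀ hk0]
    have h5 : 3 / (1 - μ + e) ≤ k := by linarith
    rw [div_le_iff₀ hpos] at h5
    linarith

/-- **Smooth values.** -/
theorem smooth (μ ε : ℝ) (hμ0 : 0 < μ) (hμ1 : μ < 1) (hε : 0 < ε) : ∃ c : ℝ, 0 < c ∧
    FE μ (fun n l => (SC l n ((n : ℝ) ^ (1 - μ + ε)) : ℝ) < c * n) := by
  classical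
  obtain ⟨e, he0, he1, he2⟩ : ∃ e : ℝ, 0 < e ∧ e ≤ ε ∧ e ≤ μ / 2 :=
    ⟨min ε (μ / 2), lt_min hε (by linarith), min_le_left _ _, min_le_right _ _⟩
  obtain ⟨k, s, h, hs0, hh0, hsk, hk1, hkh, hsθ⟩ := exps μ e hμ0 hμ1 he0 he2
  have hk1r : (1 : ℝ) ≤ k := by exact_mod_cast hk1
  set α : Fin k → ℝ := fun i => s + (i : ℕ) * h with hα
  set β : Fin k → ℝ := fun i => s + ((i : ℕ) + 1 : ℕ) * h with hβ
  have hα0 : ∀ i, s ≤ α i := by
    intro i
    rw [hα]
    have : 0 ≤ ((i : ℕ) : ℝ) * h := by positivity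
    simp only
    linarith
  have hαβ : ∀ i, α i < β i := by
    intro i
    rw [hα, hβ]
    push_cast
    linarith
  have hβk : ∀ i, β i ≤ s + k * h := by
    intro i
    rw [hβ]
    have h1 : (((i : ℕ) + 1 : ℕ) : ℝ) ≤ k := by exact_mod_cast i.2
    have := mul_le_mul_of_nonneg_right h1 hh0.le
    simp only
    linarith
  have hd : ∀ i j, i ≠ j → β i ≤ α j ∨ β j ≤ α i := by
    intro i j hij
    have hij' : (i : ℕ) ≠ j := fun h => hij (Fin.ext h)
    rcases Nat.lt_or_ge i j with h1 | h1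
    · left
      rw [hα, hβ]
      have h2 : (((i : ℕ) + 1 : ℕ) : ℝ) ≤ ((j : ℕ) : ℝ) := by exact_mod_cast h1
      have := mul_le_mul_of_nonneg_right h2 hh0.le
      simp only
      linarith
    · right
      rw [hα, hβ]
      have h2 : (((j : ℕ) + 1 : ℕ) : ℝ) ≤ ((i : ℕ) : ℝ) := by exact_mod_cast (by omega : (j : ℕ) + 1 ≤ i)
      have := mul_le_mul_of_nonneg_right h2 hh0.le
      simp only
      linarith
  have hsumβ : ∑ i, β i < 1 + μ := by
    calc ∑ i, β i ≤ ∑ _i : Fin k, (s + k * h) := sum_le_sum (fun i _ => hβk i)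
      _ = s * k + (k : ℝ) * ((k : ℝ) * h) := by
        rw [sum_const, card_univ, Fintype.card_fin, nsmul_eq_mul]
        ring
      _ < 1 + μ := by rw [hsk]; linarith
  have hsumα : 1 + μ - e / 2 ≤ ∑ i, α i := by
    calc 1 + μ - e / 2 = ∑ _i : Fin k, s := by
          rw [sum_const, card_univ, Fintype.card_fin, nsmul_eq_mul, ← hsk]
          ring
      _ ≤ _ := sum_le_sum (fun i _ => hα0 i)
  set Λ0 : ℝ := ∏ i, Real.log (β i / α i) with hΛ
  have hΛ0 : 0 < Λ0 := by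
    rw [hΛ]
    apply prod_pos
    intro i _
    apply Real.log_pos
    rw [lt_div_iff₀ (hs0.trans_le (hα0 i)), one_mul]
    exact hαβ i
  set K : ℝ := 3 / s with hK
  have hK0 : 0 < K := by positivity
  refine ⟨Λ0 / 2 / K ^ k, by positivity, ?_⟩
  have hlaw := law k α β μ (Λ0 / 2) hμ0 hμ1 (by linarith) (fun i => hs0.trans_le (hα0 i)) (fun i => (hαβ i).le) hd hsumβ
  have hF : FE μ (fun n l => Λ0 / 2 * n < |TC α β n l - n * ∏ i, Real.log (β i / α i)|) := by
    unfold FE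
    filter_upwards [hlaw] with n hn
    convert hn
  apply hF.mono
  have ev1 : ∀ᶠ n : ℕ in atTop, (2 : ℝ) ≤ (n : ℝ) ^ (e / 2) :=
    ((tendsto_rpow_atTop (by linarith)).comp tendsto_natCast_atTop_atTop).eventually_ge_atTop _
  filter_upwards [ev1, eventually_ge_atTop 3] with n e1 e3 l hl1 hl2 hbad
  by_contra hcon
  push Not at hcon
  have hnr : (3 : ℝ) ≤ n := by exact_mod_cast e3
  have hn0 : (0 : ℝ) < n := by linarith
  set θ : ℝ := 1 - μ + e with hθ
  have hβθ : ∀ i, β i ≤ θ := fun i => (hβk i).trans hsθ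
  have hβ2 : ∀ i, β i ≤ 2 := fun i => (hβθ i).trans (by rw [hθ]; linarith)
  -- every tuple shows that the value is smooth
  have hsm : ∀ m ∈ Icc 1 n, ∏ i, ∑ p ∈ Pn n (α i) (β i), dI (m ^ 2 + l ^ 2) p ≤
      if (∀ p : ℕ, p.Prime → p ∣ m ^ 2 + l ^ 2 → (p : ℝ) ≤ (n : ℝ) ^ θ) then K ^ k else 0 := by
    intro m hm
    rw [mem_Icc] at hm
    have hx0 : 0 < m ^ 2 + l ^ 2 := by positivity
    have hx2 := val_le m l n hm.2 hl2
    have hx3 : ((m ^ 2 + l ^ 2 : ℕ) : ℝ) ≤ (n : ℝ) ^ (3 : ℝ) := by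
      have h1 : (n : ℝ) ^ (3 : ℝ) = (n : ℝ) ^ 3 := by
        rw [← Real.rpow_natCast]
        norm_num
      rw [h1]
      have h2 : 0 < (n : ℝ) ^ 2 := by positivity
      nlinarith
    simp_rw [dI_sum]
    split_ifs with hsmo
    · calc ∏ i, (((Pn n (α i) (β i)).filter (fun p => p ∣ m ^ 2 + l ^ 2)).card : ℝ) ≤ ∏ _i : Fin k, K := by
            apply prod_le_prod (fun _ _ => Nat.cast_nonneg _)
            intro i _
            have h1 := card_large n (m ^ 2 + l ^ 2) s (by omega) hs0 hx0 hx3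
              ((Pn n (α i) (β i)).filter (fun p => p ∣ m ^ 2 + l ^ 2)) (by
                intro p hp
                rw [mem_filter, mem_Pn n _ _ (by omega) (hβ2 i)] at hp
                refine ⟨hp.1.1, ?_, hp.2⟩
                exact (Real.rpow_le_rpow_of_exponent_le (by linarith) (hα0 i)).trans hp.1.2.1)
            exact h1
        _ = K ^ k := by rw [prod_const, card_univ, Fintype.card_fin]
    · apply le_of_eq
      by_contra hne
      apply hsmo
      have hne' : ∀ i, ((Pn n (α i) (β i)).filter (fun p => p ∣ m ^ 2 + l ^ 2)).Nonempty := by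
        intro i
        rw [nonempty_iff_ne_empty]
        intro h0
        apply hne
        apply prod_eq_zero (mem_univ i)
        rw [h0, card_empty, Nat.cast_zero]
      choose τ hτ using hne'
      have hτ' : ∀ i, (τ i).Prime ∧ (n : ℝ) ^ (α i) ≤ τ i ∧ (τ i : ℝ) < (n : ℝ) ^ (β i) ∧ τ i ∣ m ^ 2 + l ^ 2 := by
        intro i
        have := hτ i
        rw [mem_filter, mem_Pn n _ _ (by omega) (hβ2 i)] at this
        exact ⟨this.1.1, this.1.2.1, this.1.2.2, this.2⟩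
      have hinj : Function.Injective τ := by
        intro i j hij
        by_contra hne2
        rcases hd i j hne2 with h1 | h1
        · have h2 := Real.rpow_le_rpow_of_exponent_le (by linarith : (1 : ℝ) ≤ n) h1
          have h3 := (hτ' i).2.2.1
          have h4 := (hτ' j).2.1
          rw [hij] at h3
          linarith
        · have h2 := Real.rpow_le_rpow_of_exponent_le (by linarith : (1 : ℝ) ≤ n) h1
          have h3 := (hτ' j).2.2.1
          have h4 := (hτ' i).2.1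
          rw [hij] at h4
          linarith
      have hdvd : ∏ i, τ i ∣ m ^ 2 + l ^ 2 := by
        rw [← prod_image (f := fun p => p) (g := τ) (fun i _ j _ h => hinj h)]
        apply Finset.prod_primes_dvd
        · intro p hp
          rw [mem_image] at hp
          obtain ⟨i, -, rfl⟩ := hp
          exact (hτ' i).1.prime
        · intro p hp
          rw [mem_image] at hp
          obtain ⟨i, -, rfl⟩ := hp
          exact (hτ' i).2.2.2
      obtain ⟨y, hy⟩ := hdvd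
      have hprod : (n : ℝ) ^ (1 + μ - e / 2) ≤ ((∏ i, τ i : ℕ) : ℝ) := by
        push_cast
        calc (n : ℝ) ^ (1 + μ - e / 2) ≤ (n : ℝ) ^ (∑ i, α i) :=
              Real.rpow_le_rpow_of_exponent_le (by linarith) hsumα
          _ = ∏ i, (n : ℝ) ^ (α i) := Real.rpow_sum_of_pos hn0 _ _
          _ ≤ _ := prod_le_prod (fun _ _ => by positivity) (fun i _ => (hτ' i).2.1)
      have hy0 : 0 < y := by
        rcases Nat.eq_zero_or_pos y with h0 | h0
        · rw [h0, mul_zero] at hy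
          omega
        · exact h0
      have hyle : (y : ℝ) ≤ (n : ℝ) ^ θ := by
        have h1 : ((∏ i, τ i : ℕ) : ℝ) * y = ((m ^ 2 + l ^ 2 : ℕ) : ℝ) := by
          rw [hy]
          push_cast
          ring
        have h2 : (n : ℝ) ^ (1 + μ - e / 2) * y ≤ 2 * (n : ℝ) ^ 2 := by
          calc (n : ℝ) ^ (1 + μ - e / 2) * y ≤ ((∏ i, τ i : ℕ) : ℝ) * y :=
                mul_le_mul_of_nonneg_right hprod (Nat.cast_nonneg _)
            _ = ((m ^ 2 + l ^ 2 : ℕ) : ℝ) := h1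
            _ ≤ _ := hx2
        have h3 : 2 * (n : ℝ) ^ 2 ≤ (n : ℝ) ^ (1 + μ - e / 2) * (n : ℝ) ^ θ := by
          have h4 : (n : ℝ) ^ (1 + μ - e / 2) * (n : ℝ) ^ θ = (n : ℝ) ^ 2 * (n : ℝ) ^ (e / 2) := by
            rw [← Real.rpow_natCast (n : ℝ) 2, ← Real.rpow_add hn0, ← Real.rpow_add hn0]
            congr 1
            rw [hθ]
            push_cast
            ring
          rw [h4]
          have h5 : 0 < (n : ℝ) ^ 2 := by positivity
          nlinarith
        exact le_of_mul_le_mul_left (h2.trans h3) (by positivity)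
      intro q hq hqx
      rw [hy] at hqx
      rcases (Nat.Prime.dvd_mul hq).1 hqx with h1 | h1
      · obtain ⟨i, -, hi⟩ := (Prime.dvd_finsetProd_iff hq.prime _).1 h1
        have h2 : q = τ i := (Nat.prime_dvd_prime_iff_eq hq (hτ' i).1).1 hi
        rw [h2]
        exact (hτ' i).2.2.1.le.trans (Real.rpow_le_rpow_of_exponent_le (by linarith) (hβθ i))
      · have h2 : (q : ℝ) ≤ y := by exact_mod_cast Nat.le_of_dvd hy0 h1
        exact h2.trans hyle
  have h1 : TC α β n l ≤ K ^ k * SC l n ((n : ℝ) ^ θ) := by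
    unfold TC
    refine (sum_le_sum hsm).trans ?_
    unfold SC
    rw [← sum_filter, sum_const, nsmul_eq_mul, mul_comm]
  have h2 : (SC l n ((n : ℝ) ^ θ) : ℝ) ≤ SC l n ((n : ℝ) ^ (1 - μ + ε)) := by
    exact_mod_cast SC_mono l n _ _ (Real.rpow_le_rpow_of_exponent_le (by linarith) (by rw [hθ]; linarith))
  have h3 := (abs_le.1 hcon).1
  have h4 : Λ0 / 2 * n ≤ TC α β n l := by
    have h5 : (n : ℝ) * ∏ i, Real.log (β i / α i) = Λ0 * n := by rw [hΛ]; ring
    rw [h5] at h3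
    linarith
  have h5 : Λ0 / 2 * n < K ^ k * (Λ0 / 2 / K ^ k * n) := by
    calc Λ0 / 2 * n ≤ TC α β n l := h4
      _ ≤ K ^ k * SC l n ((n : ℝ) ^ θ) := h1
      _ ≤ K ^ k * SC l n ((n : ℝ) ^ (1 - μ + ε)) := mul_le_mul_of_nonneg_left h2 (by positivity)
      _ < _ := mul_lt_mul_of_pos_left hbad (by positivity)
  have h6 : K ^ k * (Λ0 / 2 / K ^ k * n) = Λ0 / 2 * n := by
    field_simp
  linarith

end Pool.Agent.U529.BL
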