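import Mathlib

/-! The number of the `m ≤ n` with `q ∣ m ^ 2 + l ^ 2`. -/

set_option autoImplicit false

namespace Pool.Agent.U529.BL

open Finset

/-- the number of the `m ≤ n` with `q ∣ m ^ 2 + l ^ 2` -/
def Aq (n l q : ℕ) : ℕ := ((Icc 1 n).filter (fun m : ℕ => q ∣ m ^ 2 + l ^ 2)).card

theorem res_card (n q : ℕ) (S : Finset ℕ) (hS : S ⊆ Icc 1 n) (h : ∀ a ∈ S, ∀ b ∈ S, (q : ℤ) ∣ (a : ℤ) - b) :
    S.card ≤ n / q + 1 := by
  rcases Nat.eq_zero_or_pos q with h0 | hq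
  · subst h0
    rw [Nat.div_zero, zero_add, card_le_one]
    intro a ha b hb
    have := h a ha b hb
    rw [Nat.cast_zero, zero_dvd_iff] at this
    omega
  have h1 : S.card ≤ (range (n / q + 1)).card := by
    apply card_le_card_of_injOn (fun m => m / q)
    · intro m hm
      have h2 := hS hm
      rw [mem_Icc] at h2
      show m / q ∈ ((range (n / q + 1) : Finset ℕ) : Set ℕ)
      rw [mem_coe, mem_range]
      exact Nat.lt_succ_of_le (Nat.div_le_div_right h2.2)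
    · intro a ha b hb hab
      simp only at hab
      have h2 := h a ha b hb
      have h3 : (a : ℤ) % q = (b : ℤ) % q := (Int.modEq_iff_dvd.2 h2).symm
      have h4 : a % q = b % q := by exact_mod_cast h3
      rw [← Nat.div_add_mod a q, ← Nat.div_add_mod b q, hab, h4]
  rwa [card_range] at h1

/-- the solutions lie in two residue classes -/
theorem Aq_le (n l q r : ℕ) (h : ∀ a b : ℕ, q ∣ a ^ 2 + l ^ 2 → q ∣ b ^ 2 + l ^ 2 →
    (r : ℤ) ∣ (a : ℤ) - b ∨ (r : ℤ) ∣ (a : ℤ) + b) : Aq n l q ≤ 2 * (n / r + 1) := by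
  classical
  unfold Aq
  set S := (Icc 1 n).filter (fun m : ℕ => q ∣ m ^ 2 + l ^ 2) with hS
  rcases S.eq_empty_or_nonempty with h0 | ⟨a, ha⟩
  · rw [h0, card_empty]
    exact Nat.zero_le _
  have ha' := ha
  rw [hS, mem_filter] at ha'
  have h1 : S ⊆ S.filter (fun b : ℕ => (r : ℤ) ∣ (a : ℤ) - b) ∪ S.filter (fun b : ℕ => (r : ℤ) ∣ (a : ℤ) + b) := by
    intro b hb
    have hb' := hb
    rw [hS, mem_filter] at hb'
    rcases h a b ha'.2 hb'.2 with h2 | h2
    · exact mem_union_left _ (mem_filter.2 ⟨hb, h2⟩)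
    · exact mem_union_right _ (mem_filter.2 ⟨hb, h2⟩)
  have h2 := (card_le_card h1).trans (card_union_le _ _)
  have h3 : (S.filter (fun b : ℕ => (r : ℤ) ∣ (a : ℤ) - b)).card ≤ n / r + 1 := by
    apply res_card n r _ ((filter_subset _ _).trans (filter_subset _ _))
    intro b hb c hc
    rw [mem_filter] at hb hc
    have h4 : (b : ℤ) - c = ((a : ℤ) - c) - ((a : ℤ) - b) := by ring
    rw [h4]
    exact dvd_sub hc.2 hb.2
  have h4 : (S.filter (fun b : ℕ => (r : ℤ) ∣ (a : ℤ) + b)).card ≤ n / r + 1 := by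
    apply res_card n r _ ((filter_subset _ _).trans (filter_subset _ _))
    intro b hb c hc
    rw [mem_filter] at hb hc
    have h4 : (b : ℤ) - c = ((a : ℤ) + b) - ((a : ℤ) + c) := by ring
    rw [h4]
    exact dvd_sub hb.2 hc.2
  omega

theorem diff_sq (l q a b : ℕ) (ha : q ∣ a ^ 2 + l ^ 2) (hb : q ∣ b ^ 2 + l ^ 2) :
    (q : ℤ) ∣ ((a : ℤ) - b) * ((a : ℤ) + b) := by
  have h1 : ((a : ℤ) - b) * ((a : ℤ) + b) = ((a ^ 2 + l ^ 2 : ℕ) : ℤ) - ((b ^ 2 + l ^ 2 : ℕ) : ℤ) := by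
    push_cast
    ring
  rw [h1]
  exact dvd_sub (Int.natCast_dvd_natCast.2 ha) (Int.natCast_dvd_natCast.2 hb)

theorem Aq_prime (n l p : ℕ) (hp : p.Prime) : Aq n l p ≤ 2 * (n / p + 1) := by
  apply Aq_le
  intro a b ha hb
  exact (Nat.prime_iff_prime_int.1 hp).dvd_or_dvd (diff_sq l p a b ha hb)

/-- a prime power dividing a product -/
theorem pp_dvd (p j : ℕ) (hp : p.Prime) (x y : ℤ) (h : (((p ^ j) ^ 2 : ℕ) : ℤ) ∣ x * y) :
    ((p ^ j : ℕ) : ℤ) ∣ x ∨ ((p ^ j : ℕ) : ℤ) ∣ y := by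
  have hpi : Prime (p : ℤ) := Nat.prime_iff_prime_int.1 hp
  by_cases hx0 : x = 0
  · left
    rw [hx0]
    exact dvd_zero _
  by_cases hy0 : y = 0
  · right
    rw [hy0]
    exact dvd_zero _
  have h1 : (p : ℤ) ^ (2 * j) ∣ x * y := by
    have h2 : (((p ^ j) ^ 2 : ℕ) : ℤ) = (p : ℤ) ^ (2 * j) := by
      push_cast
      rw [← pow_mul, mul_comm]
    rwa [h2] at h
  have hfx : FiniteMultiplicity (p : ℤ) x := Int.finiteMultiplicity_iff.2 ⟨by
    rw [Int.natAbs_natCast]; exact hp.one_lt.ne', hx0⟩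
  have hfy : FiniteMultiplicity (p : ℤ) y := Int.finiteMultiplicity_iff.2 ⟨by
    rw [Int.natAbs_natCast]; exact hp.one_lt.ne', hy0⟩
  have hfxy : FiniteMultiplicity (p : ℤ) (x * y) := Prime.finiteMultiplicity_mul hpi hfx hfy
  have h2 : 2 * j ≤ multiplicity (p : ℤ) (x * y) := hfxy.le_multiplicity_of_pow_dvd h1
  rw [multiplicity_mul hpi hfxy] at h2
  push_cast
  by_cases hj : j ≤ multiplicity (p : ℤ) x
  · left
    exact pow_dvd_of_le_multiplicity hj
  · right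
    apply pow_dvd_of_le_multiplicity
    omega

theorem Aq_sq (n l p j : ℕ) (hp : p.Prime) : Aq n l ((p ^ j) ^ 2) ≤ 2 * (n / (p ^ j) + 1) := by
  apply Aq_le
  intro a b ha hb
  exact pp_dvd p j hp _ _ (diff_sq l _ a b ha hb)

theorem Aq_cop (n l p j : ℕ) (hp : p.Prime) (hj : 1 ≤ j) (h2l : ¬ p ∣ 2 * l) :
    Aq n l ((p ^ j) ^ 2) ≤ 2 * (n / ((p ^ j) ^ 2) + 1) := by
  apply Aq_le
  intro a b ha hb
  have h1 := diff_sq l _ a b ha hb
  have hpi : Prime (p : ℤ) := Nat.prime_iff_prime_int.1 hp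
  have hp1 : ∀ c : ℕ, (p ^ j) ^ 2 ∣ c → p ∣ c := by
    intro c hc
    have h3 : p ∣ p ^ j := dvd_pow_self p (by omega)
    have h4 : p ^ j ∣ (p ^ j) ^ 2 := dvd_pow_self _ (by norm_num)
    exact (h3.trans h4).trans hc
  have hpa := hp1 _ ha
  have hpb := hp1 _ hb
  have hna : ¬ p ∣ a := by
    intro h
    have h3 : p ∣ l ^ 2 := by
      have h4 : p ∣ a ^ 2 := dvd_pow h (by norm_num)
      exact (Nat.dvd_add_right h4).1 hpa
    exact h2l (dvd_mul_of_dvd_right (hp.dvd_of_dvd_pow h3) 2)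
  have hn2 : ¬ p ∣ 2 := fun h => h2l (dvd_mul_of_dvd_left h l)
  -- p divides at most one factor
  by_cases hx : (p : ℤ) ∣ (a : ℤ) - b
  · left
    have hy : ¬ (p : ℤ) ∣ (a : ℤ) + b := by
      intro hy
      have h3 : (p : ℤ) ∣ ((2 * a : ℕ) : ℤ) := by
        have h4 : ((2 * a : ℕ) : ℤ) = ((a : ℤ) - b) + ((a : ℤ) + b) := by push_cast; ring
        rw [h4]
        exact dvd_add hx hy
      have h5 := Int.natCast_dvd_natCast.1 h3
      rcases (Nat.Prime.dvd_mul hp).1 h5 with h6 | h6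
      · exact hn2 h6
      · exact hna h6
    have hc : IsCoprime ((((p ^ j) ^ 2 : ℕ)) : ℤ) ((a : ℤ) + b) := by
      push_cast
      apply IsCoprime.pow_left
      apply IsCoprime.pow_left
      exact (Prime.coprime_iff_not_dvd hpi).2 hy
    exact hc.dvd_of_dvd_mul_right h1
  · right
    have hc : IsCoprime ((((p ^ j) ^ 2 : ℕ)) : ℤ) ((a : ℤ) - b) := by
      push_cast
      apply IsCoprime.pow_left
      apply IsCoprime.pow_left
      exact (Prime.coprime_iff_not_dvd hpi).2 hx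
    exact hc.dvd_of_dvd_mul_left h1

theorem div_real (n r : ℕ) : ((2 * (n / r + 1) : ℕ) : ℝ) ≤ 2 * ((n : ℝ) / r + 1) := by
  push_cast
  have := Nat.cast_div_le (m := n) (n := r) (α := ℝ)
  linarith

end Pool.Agent.U529.BL
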