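import Pool.Agent.U529.FD.Main2

/-! Weighted divisor sums of `m ^ 2 + l ^ 2`, `m ≤ n`, for all but few `l ≤ n`. -/

set_option autoImplicit false

namespace Pool.Agent.U529.BL

open Finset Polynomial Filter Topology
open Pool.Agent.W23.DC
open Pool.Agent.Y882.PX
open Pool.Agent.Y882.SI
open Pool.Agent.Y882.JR
open Pool.Agent.Y882
open Pool.Agent.U529.FD

/-- the indicator function of divisibility -/
noncomputable def dI (x : ℕ) (p : ℕ) : ℝ := if p ∣ x then 1 else 0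

/-- the density -/
noncomputable def gq (l : ℕ) (p : ℕ) : ℝ := (ro (QF ((l : ℤ) ^ 2)) 0 p : ℝ) / p

theorem gq_nonneg (l p : ℕ) : 0 ≤ gq l p := by
  unfold gq
  positivity

theorem natAbs_eval (l j : ℕ) : ((QF ((l : ℤ) ^ 2)).eval (((0 + j : ℕ)) : ℤ)).natAbs = j ^ 2 + l ^ 2 := by
  rw [QF_eval, zero_add]
  have h : ((j : ℕ) : ℤ) ^ 2 + (l : ℤ) ^ 2 = ((j ^ 2 + l ^ 2 : ℕ) : ℤ) := by push_cast; ring
  rw [h, Int.natAbs_natCast]

open Classical in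
/-- **The sums with weights, for all but few `l`.** -/
theorem few_nat (δ : ℝ) (hδ0 : 0 < δ) (hδ1 : δ ≤ 1 / 100) : ∃ N0 : ℕ, ∀ n : ℕ, N0 ≤ n →
    ∀ (P : Finset ℕ) (w : Finset ℕ → ℝ) (D : ℝ), (∀ p ∈ P, p.Prime) → 1 ≤ D → D ≤ (n : ℝ) ^ 2 →
      (∀ T, |w T| ≤ (n : ℝ) ^ δ) → (∀ T ⊆ P, w T ≠ 0 → ((∏ p ∈ T, p : ℕ) : ℝ) ≤ D) →
      (((Icc 1 n).filter (fun l : ℕ => (n : ℝ) / ((n : ℝ) ^ δ) ^ 10 <
        |∑ m ∈ Icc 1 n, VV P w (dI (m ^ 2 + l ^ 2)) - n * VV P w (gq l)|)).card : ℝ) ≤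
          2 * (((n : ℝ) ^ δ) ^ 137 * (D / n)) := by
  obtain ⟨N0, H⟩ := few Pool.Agent.N407.GN.dvb Pool.Agent.N7.GN.Rls.rls δ hδ0 hδ1
  refine ⟨N0, ?_⟩
  intro n hn P w D hP hD1 hD2 hw hwD
  refine le_trans ?_ (H n hn P w D hP hD1 hD2 hw hwD)
  apply Nat.cast_le.2
  apply card_nat_le
  intro l hl1 hl2 h
  have h1 := wsum (QF ((l : ℤ) ^ 2)) P hP w n 0
  have h2 : ∑ m ∈ Icc 1 n, VV P w (dI (m ^ 2 + l ^ 2)) =
      ∑ j ∈ Icc 1 n, VV P w (fun p => if p ∣ ((QF ((l : ℤ) ^ 2)).eval ((0 + j : ℕ) : ℤ)).natAbs then 1 else 0) := by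
    apply sum_congr rfl
    intro j _
    rw [natAbs_eval]
    rfl
  have h3 : VV P w (fun p => (ro (QF ((l : ℤ) ^ 2)) 0 p : ℝ) / p) = VV P w (gq l) := rfl
  rw [h2, h1, h3, add_sub_cancel_left] at h
  exact h

/-- the primes in `[n ^ a, n ^ b)` -/
noncomputable def Pn (n : ℕ) (a b : ℝ) : Finset ℕ := pr (n ^ 2) (a / 2) (b / 2)

theorem pow_half (n : ℕ) (u : ℝ) (_ : 1 ≤ n) : ((n ^ 2 : ℕ) : ℝ) ^ (u / 2) = (n : ℝ) ^ u := by
  have hn0 : (0 : ℝ) ≤ n := Nat.cast_nonneg _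
  push_cast
  rw [← Real.rpow_natCast, ← Real.rpow_mul hn0]
  congr 1
  push_cast
  ring

theorem mem_Pn (n : ℕ) (a b : ℝ) (hn : 2 ≤ n) (hb : b ≤ 2) (p : ℕ) :
    p ∈ Pn n a b ↔ p.Prime ∧ (n : ℝ) ^ a ≤ p ∧ (p : ℝ) < (n : ℝ) ^ b := by
  have hn2 : 2 ≤ n ^ 2 := by nlinarith
  unfold Pn pr
  rw [mem_filter, mem_Icc]
  constructor
  · rintro ⟨h1, h2, h3, h4⟩
    refine ⟨h2, ?_, ?_⟩
    · rw [← pow_half n a (by omega)]
      by_contra hc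
      push Not at hc
      exact absurd ((tt_lt (n ^ 2) p (a / 2) hn2 h2.pos).2 hc) (not_lt.2 h3)
    · rw [← pow_half n b (by omega)]
      exact (tt_lt (n ^ 2) p (b / 2) hn2 h2.pos).1 h4
  · rintro ⟨h2, h3, h4⟩
    rw [← pow_half n a (by omega)] at h3
    have h5 : p ≤ n ^ 2 := by
      have h6 : (p : ℝ) < (n : ℝ) ^ (2 : ℝ) := h4.trans_le
        (Real.rpow_le_rpow_of_exponent_le (by exact_mod_cast (by omega : 1 ≤ n)) hb)
      have h7 : (n : ℝ) ^ (2 : ℝ) = ((n ^ 2 : ℕ) : ℝ) := by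
        push_cast
        rw [← Real.rpow_natCast]
        norm_num
      rw [h7] at h6
      exact_mod_cast h6.le
    rw [← pow_half n b (by omega)] at h4
    refine ⟨⟨h2.one_le, h5⟩, h2, ?_, (tt_lt (n ^ 2) p (b / 2) hn2 h2.pos).2 h4⟩
    by_contra hc
    push Not at hc
    exact absurd ((tt_lt (n ^ 2) p (a / 2) hn2 h2.pos).1 hc) (not_lt.2 h3)

/-- **Mertens** -/
theorem mer_n (a b η : ℝ) (ha : 0 < a) (hab : a ≤ b) (hb : b ≤ 2) (hη : 0 < η) : ∃ N0 : ℕ, ∀ n : ℕ, N0 ≤ n →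
    ∀ l : ℕ, 1 ≤ l → l ≤ n → |∑ p ∈ Pn n a b, gq l p - Real.log (b / a)| ≤ η := by
  classical
  obtain ⟨Y0, H⟩ := mer_l (a / 2) (b / 2) η (by linarith) (by linarith) hη
  refine ⟨Y0, ?_⟩
  intro n hn l hl hln
  have hnn : n ≤ n ^ 2 := Nat.le_self_pow (by norm_num) n
  have h1 := H (n ^ 2) (hn.trans hnn) (l : ℤ) (by exact_mod_cast hl) (by
    have : l ≤ n ^ 2 := hln.trans hnn
    exact_mod_cast this) (a / 2) (b / 2) le_rfl (by linarith) le_rfl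
  have h2 : (pr (n ^ 2) (a / 2) (b / 2)).filter (fun p => a / 2 ≤ tt (n ^ 2) p ∧ tt (n ^ 2) p < b / 2) = Pn n a b := by
    unfold Pn
    rw [filter_eq_self]
    intro p hp
    unfold pr at hp
    rw [mem_filter] at hp
    exact hp.2.2
  rw [h2] at h1
  have h3 : b / 2 / (a / 2) = b / a := by field_simp
  rw [h3] at h1
  exact h1

end Pool.Agent.U529.BL
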