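import Pool.Agent.U529.BL.Smooth

/-! The joint law for the `m` with `m + l` odd. -/

set_option autoImplicit false

namespace Pool.Agent.U529.BL

open Finset Polynomial Filter Topology
open Pool.Agent.Y882

/-- the products of the sums over prime sets -/
noncomputable def TG {k : ℕ} (P : Fin k → Finset ℕ) (n l : ℕ) : ℝ :=
  ∑ m ∈ Icc 1 n, ∏ i, ∑ p ∈ P i, dI (m ^ 2 + l ^ 2) p

/-- **The law for tuples of prime sets.** -/
theorem lawG (k : ℕ) (P : ℕ → Fin k → Finset ℕ) (μ ε s : ℝ) (_ : 0 < μ) (hμ1 : μ < 1) (hε : 0 < ε)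
    (hs1 : 1 ≤ s) (hs2 : s < 1 + μ)
    (hP : ∀ᶠ n : ℕ in atTop, (∀ i, ∀ p ∈ P n i, p.Prime) ∧ (∀ i j, i ≠ j → Disjoint (P n i) (P n j)) ∧
      (∀ τ : Fin k → ℕ, (∀ i, τ i ∈ P n i) → ((∏ i, τ i : ℕ) : ℝ) ≤ (n : ℝ) ^ s)) :
    FE μ (fun n l => ε * n < |TG (P n) n l - n * ∏ i, ∑ p ∈ P n i, gq l p|) := by
  classical
  obtain ⟨δ, hδ0, hδ1, hδ2⟩ : ∃ δ : ℝ, 0 < δ ∧ δ ≤ 1 / 100 ∧ 138 * δ + s < 1 + μ := by
    refine ⟨min (1 / 100) ((1 + μ - s) / 139), lt_min (by norm_num) (by linarith), min_le_left _ _, ?_⟩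
    have := min_le_right (1 / 100 : ℝ) ((1 + μ - s) / 139)
    linarith
  obtain ⟨N1, H1⟩ := few_nat δ hδ0 hδ1
  have hXr : Tendsto (fun n : ℕ => (n : ℝ)) atTop atTop := tendsto_natCast_atTop_atTop
  have ev1 : ∀ᶠ n : ℕ in atTop, 2 + 1 / ε ≤ (n : ℝ) ^ δ :=
    ((tendsto_rpow_atTop hδ0).comp hXr).eventually_ge_atTop _
  unfold FE
  filter_upwards [ev1, eventually_ge_atTop 2, eventually_ge_atTop N1, hP] with n e1 e2 e3 e4
  obtain ⟨hPp, hdis, hprod⟩ := e4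
  have hnr : (2 : ℝ) ≤ n := by exact_mod_cast e2
  have hn0 : (0 : ℝ) < n := by linarith
  set v : ℝ := (n : ℝ) ^ δ with hv
  have hε2 : 0 < 1 / ε := by positivity
  have hv1 : 1 ≤ v := by linarith
  have hv0 : 0 < v := by linarith
  set Q : Finset ℕ := univ.biUnion (P n) with hQ
  have hPQ : ∀ i, P n i ⊆ Q := fun i => subset_biUnion_of_mem (P n) (mem_univ i)
  have hQp : ∀ p ∈ Q, p.Prime := by
    intro p hp
    rw [hQ, mem_biUnion] at hp
    obtain ⟨i, -, hi⟩ := hp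
    exact hPp i p hi
  have hD1 : 1 ≤ (n : ℝ) ^ s := Real.one_le_rpow (by linarith) (by linarith)
  have hD2 : (n : ℝ) ^ s ≤ (n : ℝ) ^ 2 := by
    rw [← Real.rpow_natCast (n : ℝ) 2]
    apply Real.rpow_le_rpow_of_exponent_le (by linarith)
    push_cast
    linarith
  have hfew := H1 n e3 Q (tw (P n)) ((n : ℝ) ^ s) hQp hD1 hD2 (fun T => (tw_abs (P n) hdis T).trans hv1) (by
    intro T _ hT
    obtain ⟨τ, hτ1, hτ2⟩ := tw_supp (P n) T hT hdis
    rw [hτ2]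
    exact hprod τ hτ1)
  have hfin : 2 * (v ^ 137 * ((n : ℝ) ^ s / n)) ≤ (n : ℝ) ^ μ := by
    calc 2 * (v ^ 137 * ((n : ℝ) ^ s / n)) ≤ v * (v ^ 137 * ((n : ℝ) ^ s / n)) :=
          mul_le_mul_of_nonneg_right (by linarith) (by positivity)
      _ = (n : ℝ) ^ (138 * δ + s - 1) := by
        have h1 : v ^ 138 = (n : ℝ) ^ (138 * δ) := by
          rw [hv, ← Real.rpow_natCast, ← Real.rpow_mul hn0.le]
          congr 1
          push_cast
          ring
        calc v * (v ^ 137 * ((n : ℝ) ^ s / n)) = v ^ 138 * (n : ℝ) ^ s / n := by ring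
          _ = _ := by
            rw [h1, ← Real.rpow_add hn0, Real.rpow_sub hn0, Real.rpow_one]
      _ ≤ (n : ℝ) ^ μ := Real.rpow_le_rpow_of_exponent_le (by linarith) (by linarith)
  refine le_trans ?_ (hfew.trans hfin)
  apply Nat.cast_le.2
  apply card_le_card
  intro l hl
  rw [mem_filter] at hl ⊢
  refine ⟨hl.1, ?_⟩
  rw [mem_Icc] at hl
  obtain ⟨⟨hl1, hl2⟩, hl3⟩ := hl
  by_contra hcon
  push Not at hcon
  have h1 : ∑ m ∈ Icc 1 n, VV Q (tw (P n)) (dI (m ^ 2 + l ^ 2)) = TG (P n) n l := by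
    unfold TG
    apply sum_congr rfl
    intro m _
    rw [VV_tw (P n) Q hPQ hdis]
  rw [h1, VV_tw (P n) Q hPQ hdis] at hcon
  have h3 : (n : ℝ) / v ^ 10 ≤ ε * n := by
    rw [div_le_iff₀ (by positivity)]
    have h4 : 1 ≤ ε * v := by
      have h5 : 1 / ε ≤ v := by linarith
      rw [div_le_iff₀ hε] at h5
      linarith
    have h6 : v ≤ v ^ 10 := by
      calc v = v ^ 1 := (pow_one v).symm
        _ ≤ v ^ 10 := pow_le_pow_right₀ hv1 (by norm_num)
    calc (n : ℝ) = 1 * n := (one_mul _).symm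
      _ ≤ (ε * v) * n := mul_le_mul_of_nonneg_right h4 hn0.le
      _ ≤ (ε * v ^ 10) * n := by
        apply mul_le_mul_of_nonneg_right _ hn0.le
        exact mul_le_mul_of_nonneg_left h6 (by linarith)
      _ = _ := by ring
  linarith

/-- the density at `2` -/
theorem gq_two (l : ℕ) : gq l 2 = 1 / 2 := by
  unfold gq
  have h : Pool.Agent.Y882.PX.ro (Pool.Agent.Y882.SI.QF ((l : ℤ) ^ 2)) 0 2 = 1 := by
    rw [Pool.Agent.Y882.PX.ro_eq]
    have h0 : (((2 : ℕ) : ℤ) ∣ (Pool.Agent.Y882.SI.QF ((l : ℤ) ^ 2)).eval ((0 : ℕ) : ℤ) + 0) ↔ (2 : ℤ) ∣ (l : ℤ) ^ 2 := by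
      rw [Pool.Agent.Y882.SI.QF_eval]
      norm_num
    have h1 : (((2 : ℕ) : ℤ) ∣ (Pool.Agent.Y882.SI.QF ((l : ℤ) ^ 2)).eval ((1 : ℕ) : ℤ) + 0) ↔ (2 : ℤ) ∣ 1 + (l : ℤ) ^ 2 := by
      rw [Pool.Agent.Y882.SI.QF_eval]
      norm_num
    have hr : range 2 = {0, 1} := rfl
    rw [hr, filter_insert, filter_singleton]
    rcases Int.even_or_odd (l : ℤ) with ⟨c, hc⟩ | ⟨c, hc⟩
    · have hA : (2 : ℤ) ∣ (l : ℤ) ^ 2 := ⟨2 * c ^ 2, by rw [hc]; ring⟩
      have hB : ¬ (2 : ℤ) ∣ 1 + (l : ℤ) ^ 2 := by omega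
      rw [if_pos (h0.2 hA), if_neg (fun h => hB (h1.1 h))]
      simp
    · have hA : ¬ (2 : ℤ) ∣ (l : ℤ) ^ 2 := by
        intro h
        have h2 : (l : ℤ) ^ 2 = 2 * (2 * c ^ 2 + 2 * c) + 1 := by rw [hc]; ring
        omega
      have hB : (2 : ℤ) ∣ 1 + (l : ℤ) ^ 2 := ⟨2 * c ^ 2 + 2 * c + 1, by rw [hc]; ring⟩
      rw [if_neg (fun h => hA (h0.1 h)), if_pos (h1.2 hB)]
      simp
  rw [h]
  norm_num

/-- the sum over the `m` with `m + l` odd -/
noncomputable def TO {k : ℕ} (α β : Fin k → ℝ) (n l : ℕ) : ℝ :=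
  ∑ m ∈ (Icc 1 n).filter (fun m => (m + l) % 2 = 1), ∏ i, ∑ p ∈ Pn n (α i) (β i), dI (m ^ 2 + l ^ 2) p

theorem two_dvd (m l : ℕ) : 2 ∣ m ^ 2 + l ^ 2 ↔ ¬ (m + l) % 2 = 1 := by
  rcases Nat.even_or_odd m with ⟨a, ha⟩ | ⟨a, ha⟩ <;> rcases Nat.even_or_odd l with ⟨b, hb⟩ | ⟨b, hb⟩
  · constructor
    · intro _
      omega
    · intro _
      exact ⟨2 * a ^ 2 + 2 * b ^ 2, by rw [ha, hb]; ring⟩
  · have h : m ^ 2 + l ^ 2 = 2 * (2 * a ^ 2 + 2 * b ^ 2 + 2 * b) + 1 := by rw [ha, hb]; ring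
    constructor
    · intro h2
      omega
    · intro h2
      omega
  · have h : m ^ 2 + l ^ 2 = 2 * (2 * a ^ 2 + 2 * b ^ 2 + 2 * a) + 1 := by rw [ha, hb]; ring
    constructor
    · intro h2
      omega
    · intro h2
      omega
  · constructor
    · intro _
      omega
    · intro _
      exact ⟨2 * a ^ 2 + 2 * a + 2 * b ^ 2 + 2 * b + 1, by rw [ha, hb]; ring⟩

/-- **The joint law for the `m` with `m + l` odd.** -/
theorem lawO (k : ℕ) (α β : Fin k → ℝ) (μ ε : ℝ) (hμ0 : 0 < μ) (hμ1 : μ < 1) (hε : 0 < ε)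
    (hα : ∀ i, 0 < α i) (hαβ : ∀ i, α i ≤ β i) (hd : ∀ i j, i ≠ j → β i ≤ α j ∨ β j ≤ α i)
    (hs : ∑ i, β i < 1 + μ) :
    FE μ (fun n l => ε * n < |TO α β n l - n / 2 * ∏ i, Real.log (β i / α i)|) := by
  classical
  have hβ0 : ∀ i, 0 < β i := fun i => (hα i).trans_le (hαβ i)
  have hβ2 : ∀ i, β i ≤ 2 := by
    intro i
    have := single_le_sum (fun j _ => (hβ0 j).le) (mem_univ i)
    linarith
  obtain ⟨μ', hμ'0, hμ'1, hμ'2⟩ : ∃ μ' : ℝ, 0 < μ' ∧ μ' < μ ∧ ∑ i, β i < 1 + μ' := by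
    refine ⟨max (μ / 2) ((μ + (∑ i, β i - 1)) / 2), ?_, ?_, ?_⟩
    · exact lt_of_lt_of_le (by linarith) (le_max_left _ _)
    · exact max_lt (by linarith) (by linarith)
    · have := le_max_right (μ / 2) ((μ + (∑ i, β i - 1)) / 2)
      linarith
  obtain ⟨s0, hs01, hs02, hs03⟩ : ∃ s : ℝ, 1 ≤ s ∧ ∑ i, β i ≤ s ∧ s < 1 + μ' :=
    ⟨max 1 (∑ i, β i), le_max_left _ _, le_max_right _ _, max_lt (by linarith) hμ'2⟩
  obtain ⟨s, hs1, hs2⟩ : ∃ s : ℝ, s0 < s ∧ s < 1 + μ' := ⟨(s0 + (1 + μ')) / 2, by linarith, by linarith⟩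
  obtain ⟨η, hη0, hη⟩ := prod_close (fun i => Real.log (β i / α i)) (ε / 3) (by linarith)
  have hM : ∀ i, ∃ N0 : ℕ, ∀ n : ℕ, N0 ≤ n → ∀ l : ℕ, 1 ≤ l → l ≤ n →
      |∑ p ∈ Pn n (α i) (β i), gq l p - Real.log (β i / α i)| ≤ η :=
    fun i => mer_n (α i) (β i) η (hα i) (hαβ i) (hβ2 i) hη0
  choose NM HM using hM
  set P : ℕ → Fin k → Finset ℕ := fun n i => Pn n (α i) (β i) with hP
  set P' : ℕ → Fin (k + 1) → Finset ℕ := fun n => Fin.cons {2} (P n) with hP'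
  have hXr : Tendsto (fun n : ℕ => (n : ℝ)) atTop atTop := tendsto_natCast_atTop_atTop
  have ev0 : ∀ᶠ n : ℕ in atTop, ∀ i ∈ (univ : Finset (Fin k)), (3 : ℝ) ≤ (n : ℝ) ^ (α i) := by
    rw [eventually_all_finset]
    intro i _
    exact ((tendsto_rpow_atTop (hα i)).comp hXr).eventually_ge_atTop _
  have ev2 : ∀ᶠ n : ℕ in atTop, (2 : ℝ) ≤ (n : ℝ) ^ (s - s0) :=
    ((tendsto_rpow_atTop (by linarith)).comp hXr).eventually_ge_atTop _
  have hev : ∀ᶠ n : ℕ in atTop, (∀ i, ∀ p ∈ P n i, p.Prime) ∧ (∀ i j, i ≠ j → Disjoint (P n i) (P n j)) ∧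
      (∀ τ : Fin k → ℕ, (∀ i, τ i ∈ P n i) → ((∏ i, τ i : ℕ) : ℝ) ≤ (n : ℝ) ^ s0) := by
    filter_upwards [eventually_ge_atTop 2] with n e2
    have hnr : (2 : ℝ) ≤ n := by exact_mod_cast e2
    have hn0 : (0 : ℝ) < n := by linarith
    have hPm : ∀ i p, p ∈ P n i ↔ p.Prime ∧ (n : ℝ) ^ (α i) ≤ p ∧ (p : ℝ) < (n : ℝ) ^ (β i) :=
      fun i p => mem_Pn n (α i) (β i) e2 (hβ2 i) p
    refine ⟨fun i p hp => ((hPm i p).1 hp).1, ?_, ?_⟩
    · intro i j hij
      rw [Finset.disjoint_left]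
      intro p hp1 hp2
      rw [hPm] at hp1 hp2
      rcases hd i j hij with h | h
      · have h3 := Real.rpow_le_rpow_of_exponent_le (by linarith : (1 : ℝ) ≤ n) h
        linarith [hp1.2.2, hp2.2.1]
      · have h3 := Real.rpow_le_rpow_of_exponent_le (by linarith : (1 : ℝ) ≤ n) h
        linarith [hp2.2.2, hp1.2.1]
    · intro τ hτ
      push_cast
      calc ∏ i, (τ i : ℝ) ≤ ∏ i, (n : ℝ) ^ (β i) :=
            prod_le_prod (fun _ _ => Nat.cast_nonneg _) (fun i _ => ((hPm i _).1 (hτ i)).2.2.le)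
        _ = (n : ℝ) ^ (∑ i, β i) := by rw [Real.rpow_sum_of_pos hn0]
        _ ≤ (n : ℝ) ^ s0 := Real.rpow_le_rpow_of_exponent_le (by linarith) hs02
  have F1 := lawG k P μ' (ε / 3) s0 hμ'0 (by linarith) (by linarith) hs01 hs03 hev
  have F2 := lawG (k + 1) P' μ' (ε / 3) s hμ'0 (by linarith) (by linarith) (by linarith) hs2 (by
    filter_upwards [hev, ev0, ev2, eventually_ge_atTop 2] with n h1 h2 h3 e2
    obtain ⟨g1, g2, g3⟩ := h1
    have hnr : (2 : ℝ) ≤ n := by exact_mod_cast e2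
    have hn0 : (0 : ℝ) < n := by linarith
    have h2n : ∀ i, 2 ∉ P n i := by
      intro i hi
      have h4 := ((mem_Pn n (α i) (β i) e2 (hβ2 i) 2).1 hi).2.1
      have h5 := h2 i (mem_univ i)
      push_cast at h4
      linarith
    refine ⟨?_, ?_, ?_⟩
    · intro i
      refine Fin.cases ?_ ?_ i
      · intro p hp
        simp only [hP', Fin.cons_zero, mem_singleton] at hp
        rw [hp]
        exact Nat.prime_two
      · intro i p hp
        simp only [hP', Fin.cons_succ] at hp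
        exact g1 i p hp
    · intro i j
      refine Fin.cases ?_ ?_ i
      · refine Fin.cases ?_ ?_ j
        · intro h
          exact absurd rfl h
        · intro j _
          simp only [hP', Fin.cons_zero, Fin.cons_succ, disjoint_singleton_left]
          exact h2n j
      · intro i
        refine Fin.cases ?_ ?_ j
        · intro _
          simp only [hP', Fin.cons_zero, Fin.cons_succ, disjoint_singleton_right]
          exact h2n i
        · intro j hij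
          simp only [hP', Fin.cons_succ]
          exact g2 i j (fun h => hij (by rw [h]))
    · intro τ hτ
      rw [Fin.prod_univ_succ]
      have h4 : τ 0 = 2 := by
        have := hτ 0
        simp only [hP', Fin.cons_zero, mem_singleton] at this
        exact this
      have h5 := g3 (fun i => τ i.succ) (fun i => by
        have := hτ i.succ
        simp only [hP', Fin.cons_succ] at this
        exact this)
      rw [h4]
      push_cast at h5 ⊢
      calc 2 * ∏ i : Fin k, (τ i.succ : ℝ) ≤ (n : ℝ) ^ (s - s0) * (n : ℝ) ^ s0 :=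
            mul_le_mul h3 h5 (by positivity) (by positivity)
        _ = (n : ℝ) ^ s := by
            rw [← Real.rpow_add hn0]
            congr 1
            ring)
  apply (FE.or hμ'1 F1 F2).mono
  filter_upwards [eventually_ge_atTop 2, eventually_ge_atTop (∑ i, NM i)] with n e2 e4 l hl1 hl2 hbad
  by_contra hcon
  push Not at hcon
  obtain ⟨c1, c2⟩ := hcon
  have hnr : (2 : ℝ) ≤ n := by exact_mod_cast e2
  have hn0 : (0 : ℝ) < n := by linarith
  have h2 := hη (fun i => ∑ p ∈ P n i, gq l p) (fun i => HM i n ((single_le_sum (fun j _ => Nat.zero_le _)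
    (mem_univ i)).trans e4) l hl1 hl2)
  have h3 : ∏ i, ∑ p ∈ P' n i, gq l p = 1 / 2 * ∏ i, ∑ p ∈ P n i, gq l p := by
    rw [Fin.prod_univ_succ]
    simp only [hP', Fin.cons_zero, Fin.cons_succ, sum_singleton, gq_two]
  have h4 : TG (P' n) n l = ∑ m ∈ Icc 1 n, dI (m ^ 2 + l ^ 2) 2 * ∏ i, ∑ p ∈ P n i, dI (m ^ 2 + l ^ 2) p := by
    unfold TG
    apply sum_congr rfl
    intro m _
    rw [Fin.prod_univ_succ]
    simp only [hP', Fin.cons_zero, Fin.cons_succ, sum_singleton]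
  have h5 : TO α β n l = TG (P n) n l - TG (P' n) n l := by
    rw [h4]
    unfold TO TG
    rw [sum_filter, ← sum_sub_distrib]
    apply sum_congr rfl
    intro m _
    unfold dI
    split_ifs with h6 h7 h7
    · exact absurd h6 ((two_dvd m l).1 h7)
    · simp only [hP]
      ring
    · ring
    · exact absurd ((two_dvd m l).2 h6) h7
  rw [h3] at c2
  obtain ⟨a1, a2⟩ := abs_le.1 c1
  obtain ⟨b1, b2⟩ := abs_le.1 c2
  obtain ⟨d1, d2⟩ := abs_le.1 h2
  have h6 : |TO α β n l - n / 2 * ∏ i, Real.log (β i / α i)| ≤ ε * n := by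
    rw [h5, abs_le]
    have d1' := mul_le_mul_of_nonneg_left d1 hn0.le
    have d2' := mul_le_mul_of_nonneg_left d2 hn0.le
    constructor
    · nlinarith
    · nlinarith
  linarith

end Pool.Agent.U529.BL
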