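import Pool.Agent.U529.BL.Fam

/-! The two families `2 q r` and `(2 r + 1) q`. -/

set_option autoImplicit false

namespace Pool.Agent.U529.BL

open Finset Filter Topology

open Classical in
/-- the `m ≤ n` of the form `2 q r`, `q` prime, `r > 1` -/
noncomputable def FA (n : ℕ) : Finset ℕ := (Icc 1 n).filter (fun m => ∃ q r : ℕ, q.Prime ∧ 1 < r ∧ m = 2 * q * r)

open Classical in
/-- the `m ≤ n` of the form `(2 r + 1) q`, `q` an odd prime, `r ≥ 1` -/
noncomputable def FB (n : ℕ) : Finset ℕ :=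
  (Icc 1 n).filter (fun m => ∃ q r : ℕ, q.Prime ∧ q ≠ 2 ∧ 1 ≤ r ∧ m = (2 * r + 1) * q)

open Classical in
/-- the family belonging to the parity of `l` -/
noncomputable def FL (n l : ℕ) : Finset ℕ := if l % 2 = 1 then FA n else FB n

theorem prime_small (c : ℝ) (hc : 0 < c) : ∀ᶠ n : ℕ in atTop,
    (((Icc 1 n).filter Nat.Prime).card : ℝ) + 1 ≤ c * n := by
  have h1 := Chebyshev.eventually_primeCounting_le (ε := 1) one_pos
  have h2 : ∀ᶠ n : ℕ in atTop, (Nat.primeCounting ⌊(n : ℝ)⌋₊ : ℝ) ≤ (Real.log 4 + 1) * n / Real.log n :=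
    tendsto_natCast_atTop_atTop.eventually h1
  have h3 : ∀ᶠ n : ℕ in atTop, (Real.log 4 + 1) * (2 / c) ≤ Real.log n :=
    (Real.tendsto_log_atTop.comp tendsto_natCast_atTop_atTop).eventually_ge_atTop _
  have h4 : ∀ᶠ n : ℕ in atTop, 2 / c ≤ (n : ℝ) := tendsto_natCast_atTop_atTop.eventually_ge_atTop _
  filter_upwards [h2, h3, h4, eventually_ge_atTop 3] with n e2 e3 e4 e5
  have hnr : (3 : ℝ) ≤ n := by exact_mod_cast e5
  have hlog : 0 < Real.log n := Real.log_pos (by linarith)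
  have h5 : (((Icc 1 n).filter Nat.Prime).card : ℝ) ≤ (Nat.primeCounting ⌊(n : ℝ)⌋₊ : ℝ) := by
    rw [Nat.floor_natCast, ← Nat.primesLE_card_eq_primeCounting]
    apply Nat.cast_le.2
    apply card_le_card
    intro p hp
    rw [mem_filter, mem_Icc] at hp
    rw [Nat.mem_primesLE]
    exact ⟨hp.1.2, hp.2⟩
  have h6 : (Real.log 4 + 1) * n / Real.log n ≤ c / 2 * n := by
    rw [div_le_iff₀ hlog]
    have h7 : Real.log 4 + 1 ≤ c / 2 * Real.log n := by
      have h8 : (Real.log 4 + 1) * (2 / c) = (Real.log 4 + 1) * 2 / c := by ring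
      rw [h8, div_le_iff₀ hc] at e3
      linarith
    have h9 := mul_le_mul_of_nonneg_right h7 (by linarith : (0 : ℝ) ≤ n)
    linarith
  rw [div_le_iff₀ hc] at e4
  linarith

theorem FL_sub (n l : ℕ) : FL n l ⊆ (Icc 1 n).filter (fun m => (m + l) % 2 = 1) := by
  classical
  intro m hm
  unfold FL at hm
  rw [mem_filter]
  split_ifs at hm with h
  · unfold FA at hm
    rw [mem_filter] at hm
    obtain ⟨h1, q, r, -, -, h2⟩ := hm
    have h3 : m % 2 = 0 := by rw [h2, mul_assoc]; exact Nat.mul_mod_right 2 _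
    exact ⟨h1, by omega⟩
  · unfold FB at hm
    rw [mem_filter] at hm
    obtain ⟨h1, q, r, h3, h4, -, h2⟩ := hm
    have h5 : q % 2 = 1 := h3.eq_two_or_odd.resolve_left h4
    have h6 : m % 2 = 1 := by
      rw [h2, Nat.mul_mod, h5]
      omega
    exact ⟨h1, by omega⟩

open Classical in
theorem FL_diff (n l : ℕ) : (((Icc 1 n).filter (fun m => (m + l) % 2 = 1) \ FL n l).card : ℝ) ≤
    (((Icc 1 n).filter Nat.Prime).card : ℝ) + 1 := by
  have h1 : ((Icc 1 n).filter (fun m => (m + l) % 2 = 1) \ FL n l).card ≤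
      (insert 1 ((Icc 1 n).filter Nat.Prime)).card := by
    unfold FL
    split_ifs with h
    · apply card_le_card_of_injOn (fun m => m / 2)
      · intro m hm
        have hm' : m ∈ (Icc 1 n).filter (fun m => (m + l) % 2 = 1) \ FA n := hm
        rw [Finset.mem_sdiff, mem_filter, mem_Icc] at hm'
        obtain ⟨⟨⟨a1, a2⟩, a3⟩, a4⟩ := hm'
        show m / 2 ∈ ((insert 1 ((Icc 1 n).filter Nat.Prime) : Finset ℕ) : Set ℕ)
        rw [mem_coe, mem_insert, mem_filter, mem_Icc]
        by_cases h1 : m / 2 = 1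
        · exact Or.inl h1
        · right
          refine ⟨⟨by omega, by omega⟩, ?_⟩
          by_contra hnp
          apply a4
          unfold FA
          rw [mem_filter, mem_Icc]
          refine ⟨⟨a1, a2⟩, (m / 2).minFac, m / 2 / (m / 2).minFac, Nat.minFac_prime h1, ?_, ?_⟩
          · have hd := Nat.minFac_dvd (m / 2)
            have hpos : 0 < m / 2 := by omega
            have h2 : (m / 2).minFac ≤ m / 2 := Nat.minFac_le hpos
            have h3 : (m / 2).minFac ≠ m / 2 := fun h3 => hnp (h3 ▸ Nat.minFac_prime h1)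
            obtain ⟨c, hc⟩ := hd
            have hmf := (Nat.minFac_prime h1).pos
            have h4 : m / 2 / (m / 2).minFac = c := by
              nth_rewrite 1 [hc]
              exact Nat.mul_div_cancel_left c hmf
            rw [h4]
            by_contra hc1
            push Not at hc1
            interval_cases c
            · omega
            · omega
          · rw [mul_assoc, Nat.mul_div_cancel' (Nat.minFac_dvd _)]
            omega
      · intro a ha b hb hab
        have ha' : a ∈ (Icc 1 n).filter (fun m => (m + l) % 2 = 1) \ FA n := ha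
        have hb' : b ∈ (Icc 1 n).filter (fun m => (m + l) % 2 = 1) \ FA n := hb
        rw [Finset.mem_sdiff, mem_filter] at ha' hb'
        simp only at hab
        omega
    · apply card_le_card
      intro m hm
      rw [Finset.mem_sdiff, mem_filter, mem_Icc] at hm
      obtain ⟨⟨⟨a1, a2⟩, a3⟩, a4⟩ := hm
      rw [mem_insert, mem_filter, mem_Icc]
      by_cases h1 : m = 1
      · exact Or.inl h1
      · right
        refine ⟨⟨a1, a2⟩, ?_⟩
        by_contra hnp
        apply a4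
        have hmodd : m % 2 = 1 := by omega
        have hpr := Nat.minFac_prime h1
        obtain ⟨c, hc⟩ := Nat.minFac_dvd m
        have hodd2 : (m.minFac * c) % 2 = 1 := by rw [← hc]; exact hmodd
        have hcodd : c % 2 = 1 := by
          rcases Nat.mod_two_eq_zero_or_one c with h2 | h2
          · rw [Nat.mul_mod, h2] at hodd2
            simp at hodd2
          · exact h2
        have hc1 : c ≠ 1 := by
          intro h2
          rw [h2, mul_one] at hc
          exact hnp (hc ▸ hpr)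
        unfold FB
        rw [mem_filter, mem_Icc]
        refine ⟨⟨a1, a2⟩, m.minFac, c / 2, hpr, ?_, by omega, ?_⟩
        · intro h2
          rw [h2, Nat.mul_mod] at hodd2
          simp at hodd2
        · have h3 : 2 * (c / 2) + 1 = c := by omega
          rw [h3, mul_comm]
          exact hc
  have h2 : (insert 1 ((Icc 1 n).filter Nat.Prime)).card ≤ ((Icc 1 n).filter Nat.Prime).card + 1 := card_insert_le _ _
  exact_mod_cast h1.trans h2

/-- the sum over the family -/
noncomputable def TL {k : ℕ} (α β : Fin k → ℝ) (n l : ℕ) : ℝ :=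
  ∑ m ∈ FL n l, ∏ i, ∑ p ∈ Pn n (α i) (β i), dI (m ^ 2 + l ^ 2) p

/-- the bound for one product -/
theorem prod_bd {k : ℕ} (α β : Fin k → ℝ) (s : ℝ) (hs : 0 < s) (hα : ∀ i, s ≤ α i) (hβ : ∀ i, β i ≤ 2) (n m l : ℕ)
    (hn : 3 ≤ n) (hm1 : 1 ≤ m) (hm : m ≤ n) (hl : l ≤ n) :
    0 ≤ ∏ i, ∑ p ∈ Pn n (α i) (β i), dI (m ^ 2 + l ^ 2) p ∧
      ∏ i, ∑ p ∈ Pn n (α i) (β i), dI (m ^ 2 + l ^ 2) p ≤ (3 / s) ^ k := by
  classical
  have hnr : (3 : ℝ) ≤ n := by exact_mod_cast hn
  have hn0 : (0 : ℝ) < n := by linarith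
  have hx0 : 0 < m ^ 2 + l ^ 2 := by positivity
  have hx2 := val_le m l n hm hl
  have hx3 : ((m ^ 2 + l ^ 2 : ℕ) : ℝ) ≤ (n : ℝ) ^ (3 : ℝ) := by
    have h1 : (n : ℝ) ^ (3 : ℝ) = (n : ℝ) ^ 3 := by
      rw [← Real.rpow_natCast]
      norm_num
    rw [h1]
    have h2 : 0 < (n : ℝ) ^ 2 := by positivity
    nlinarith
  simp_rw [dI_sum]
  refine ⟨prod_nonneg (fun _ _ => Nat.cast_nonneg _), ?_⟩
  calc ∏ i, (((Pn n (α i) (β i)).filter (fun p => p ∣ m ^ 2 + l ^ 2)).card : ℝ) ≤ ∏ _i : Fin k, (3 / s) := by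
        apply prod_le_prod (fun _ _ => Nat.cast_nonneg _)
        intro i _
        exact card_large n (m ^ 2 + l ^ 2) s (by omega) hs hx0 hx3
          ((Pn n (α i) (β i)).filter (fun p => p ∣ m ^ 2 + l ^ 2)) (by
            intro p hp
            rw [mem_filter, mem_Pn n _ _ (by omega) (hβ i)] at hp
            refine ⟨hp.1.1, ?_, hp.2⟩
            exact (Real.rpow_le_rpow_of_exponent_le (by linarith) (hα i)).trans hp.1.2.1)
    _ = (3 / s) ^ k := by rw [prod_const, card_univ, Fintype.card_fin]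

theorem exists_min {k : ℕ} (α : Fin k → ℝ) (hα : ∀ i, 0 < α i) : ∃ s : ℝ, 0 < s ∧ ∀ i, s ≤ α i := by
  induction k with
  | zero => exact ⟨1, one_pos, fun i => i.elim0⟩
  | succ k ih =>
    obtain ⟨s, hs0, hs⟩ := ih (fun i => α i.succ) (fun i => hα _)
    refine ⟨min s (α 0), lt_min hs0 (hα 0), ?_⟩
    intro i
    refine Fin.cases ?_ ?_ i
    · exact min_le_right _ _
    · intro i
      exact (min_le_left _ _).trans (hs i)

/-- **The joint law for the two families.** -/
theorem lawL (k : ℕ) (α β : Fin k → ℝ) (μ ε : ℝ) (hμ0 : 0 < μ) (hμ1 : μ < 1) (hε : 0 < ε)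
    (hα : ∀ i, 0 < α i) (hαβ : ∀ i, α i ≤ β i) (hd : ∀ i j, i ≠ j → β i ≤ α j ∨ β j ≤ α i)
    (hs : ∑ i, β i < 1 + μ) :
    FE μ (fun n l => ε * n < |TL α β n l - n / 2 * ∏ i, Real.log (β i / α i)|) := by
  classical
  have hβ0 : ∀ i, 0 < β i := fun i => (hα i).trans_le (hαβ i)
  have hβ2 : ∀ i, β i ≤ 2 := by
    intro i
    have := single_le_sum (fun j _ => (hβ0 j).le) (mem_univ i)
    linarith
  obtain ⟨s, hs0, hsα⟩ := exists_min α hα
  have F := lawO k α β μ (ε / 2) hμ0 hμ1 (by linarith) hα hαβ hd hs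
  have hK : 0 < (3 / s) ^ k := by positivity
  apply F.mono
  filter_upwards [prime_small (ε / 2 / (3 / s) ^ k) (by positivity), eventually_ge_atTop 3] with n e1 e3 l hl1 hl2 hbad
  by_contra hcon
  push Not at hcon
  have h1 : TO α β n l = TL α β n l + ∑ m ∈ (Icc 1 n).filter (fun m => (m + l) % 2 = 1) \ FL n l,
      ∏ i, ∑ p ∈ Pn n (α i) (β i), dI (m ^ 2 + l ^ 2) p := by
    unfold TO TL
    rw [add_comm]
    exact (sum_sdiff (FL_sub n l)).symm
  set R : ℝ := ∑ m ∈ (Icc 1 n).filter (fun m => (m + l) % 2 = 1) \ FL n l,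
      ∏ i, ∑ p ∈ Pn n (α i) (β i), dI (m ^ 2 + l ^ 2) p with hR
  have hb : ∀ m ∈ (Icc 1 n).filter (fun m => (m + l) % 2 = 1) \ FL n l,
      0 ≤ ∏ i, ∑ p ∈ Pn n (α i) (β i), dI (m ^ 2 + l ^ 2) p ∧
      ∏ i, ∑ p ∈ Pn n (α i) (β i), dI (m ^ 2 + l ^ 2) p ≤ (3 / s) ^ k := by
    intro m hm
    rw [Finset.mem_sdiff, mem_filter, mem_Icc] at hm
    exact prod_bd α β s hs0 hsα hβ2 n m l e3 hm.1.1.1 hm.1.1.2 hl2
  have hR0 : 0 ≤ R := sum_nonneg (fun m hm => (hb m hm).1)
  have hR1 : R ≤ ε / 2 * n := by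
    calc R ≤ ∑ _m ∈ (Icc 1 n).filter (fun m => (m + l) % 2 = 1) \ FL n l, (3 / s) ^ k :=
          sum_le_sum (fun m hm => (hb m hm).2)
      _ = (((Icc 1 n).filter (fun m => (m + l) % 2 = 1) \ FL n l).card : ℝ) * (3 / s) ^ k := by
          rw [sum_const, nsmul_eq_mul]
      _ ≤ ((((Icc 1 n).filter Nat.Prime).card : ℝ) + 1) * (3 / s) ^ k :=
          mul_le_mul_of_nonneg_right (FL_diff n l) hK.le
      _ ≤ (ε / 2 / (3 / s) ^ k * n) * (3 / s) ^ k := mul_le_mul_of_nonneg_right e1 hK.le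
      _ = ε / 2 * n := by
          field_simp
  obtain ⟨c1, c2⟩ := abs_le.1 hcon
  have h2 : |TL α β n l - n / 2 * ∏ i, Real.log (β i / α i)| ≤ ε * n := by
    rw [abs_le]
    constructor <;> linarith
  linarith

end Pool.Agent.U529.BL
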