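import Pool.Agent.U529.BL.Ev

/-! The joint law of the prime factors of `m ^ 2 + l ^ 2`, `m ≤ n`, for all but few `l ≤ n`. -/

set_option autoImplicit false

namespace Pool.Agent.U529.BL

open Finset Polynomial Filter Topology
open Pool.Agent.Y882

open Classical in
/-- the number of the tuples with the set of entries `T` -/
noncomputable def tw {k : ℕ} (P : Fin k → Finset ℕ) (T : Finset ℕ) : ℝ :=
  (((Fintype.piFinset P).filter (fun τ => univ.image τ = T)).card : ℝ)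

theorem tw_abs {k : ℕ} (P : Fin k → Finset ℕ) (hd : ∀ i j, i ≠ j → Disjoint (P i) (P j)) (T : Finset ℕ) :
    |tw P T| ≤ 1 := by
  classical
  unfold tw
  rw [abs_of_nonneg (Nat.cast_nonneg _)]
  have h : ((Fintype.piFinset P).filter (fun τ => univ.image τ = T)).card ≤ 1 := by
    rw [card_le_one]
    intro τ hτ σ hσ
    rw [mem_filter, Fintype.mem_piFinset] at hτ hσ
    funext i
    have h1 : τ i ∈ univ.image σ := by
      rw [hσ.2, ← hτ.2]
      exact mem_image_of_mem _ (mem_univ i)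
    rw [mem_image] at h1
    obtain ⟨j, -, hj⟩ := h1
    by_cases hij : i = j
    · subst hij
      exact hj.symm
    · exfalso
      have h2 := hd i j hij
      rw [Finset.disjoint_left] at h2
      exact h2 (hτ.1 i) (hj ▸ hσ.1 j)
  exact_mod_cast h

theorem inj_of {k : ℕ} (P : Fin k → Finset ℕ) (hd : ∀ i j, i ≠ j → Disjoint (P i) (P j)) (τ : Fin k → ℕ)
    (hτ : ∀ i, τ i ∈ P i) : Function.Injective τ := by
  intro i j h
  by_contra hij
  have h2 := hd i j hij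
  rw [Finset.disjoint_left] at h2
  exact h2 (hτ i) (h ▸ hτ j)

theorem VV_tw {k : ℕ} (P : Fin k → Finset ℕ) (Q : Finset ℕ) (hQ : ∀ i, P i ⊆ Q)
    (hd : ∀ i j, i ≠ j → Disjoint (P i) (P j)) (f : ℕ → ℝ) : VV Q (tw P) f = ∏ i, ∑ p ∈ P i, f p := by
  classical
  unfold VV
  rw [prod_univ_sum]
  have h1 : ∀ τ ∈ Fintype.piFinset P, univ.image τ ∈ Q.powerset := by
    intro τ hτ
    rw [Fintype.mem_piFinset] at hτ
    rw [mem_powerset]
    intro p hp
    rw [mem_image] at hp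
    obtain ⟨i, -, rfl⟩ := hp
    exact hQ i (hτ i)
  rw [← sum_fiberwise_of_maps_to h1 (fun τ => ∏ i, f (τ i))]
  apply sum_congr rfl
  intro T _
  unfold tw
  rw [← nsmul_eq_mul, ← sum_const]
  apply sum_congr rfl
  intro τ hτ
  rw [mem_filter, Fintype.mem_piFinset] at hτ
  rw [← hτ.2, prod_image (fun i _ j _ h => inj_of P hd τ hτ.1 h)]

theorem tw_supp {k : ℕ} (P : Fin k → Finset ℕ) (T : Finset ℕ) (h : tw P T ≠ 0)
    (hd : ∀ i j, i ≠ j → Disjoint (P i) (P j)) :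
    ∃ τ : Fin k → ℕ, (∀ i, τ i ∈ P i) ∧ ∏ p ∈ T, p = ∏ i, τ i := by
  classical
  unfold tw at h
  have h1 : ((Fintype.piFinset P).filter (fun τ => univ.image τ = T)).Nonempty := by
    rw [nonempty_iff_ne_empty]
    intro h0
    rw [h0] at h
    simp at h
  obtain ⟨τ, hτ⟩ := h1
  rw [mem_filter, Fintype.mem_piFinset] at hτ
  refine ⟨τ, hτ.1, ?_⟩
  rw [← hτ.2, prod_image (fun i _ j _ h => inj_of P hd τ hτ.1 h)]

/-- continuity of the product -/
theorem prod_close {k : ℕ} (L : Fin k → ℝ) (ε : ℝ) (hε : 0 < ε) : ∃ η : ℝ, 0 < η ∧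
    ∀ x : Fin k → ℝ, (∀ i, |x i - L i| ≤ η) → |∏ i, x i - ∏ i, L i| ≤ ε := by
  have hc : Continuous (fun x : Fin k → ℝ => ∏ i, x i) := by fun_prop
  have h1 := Metric.continuousAt_iff.1 (hc.continuousAt (x := L)) ε hε
  obtain ⟨η, hη, H⟩ := h1
  refine ⟨η / 2, by linarith, ?_⟩
  intro x hx
  have h2 : dist x L ≤ η / 2 := by
    rw [dist_pi_le_iff (by linarith)]
    intro i
    rw [Real.dist_eq]
    exact hx i
  have h3 := H (lt_of_le_of_lt h2 (by linarith))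
  rw [Real.dist_eq] at h3
  exact h3.le

/-- the sum over `m` of the numbers of the tuples -/
noncomputable def TC {k : ℕ} (α β : Fin k → ℝ) (n l : ℕ) : ℝ :=
  ∑ m ∈ Icc 1 n, ∏ i, ∑ p ∈ Pn n (α i) (β i), dI (m ^ 2 + l ^ 2) p

open Classical in
/-- **The joint law.** -/
theorem law (k : ℕ) (α β : Fin k → ℝ) (μ ε : ℝ) (hμ0 : 0 < μ) (hμ1 : μ < 1) (hε : 0 < ε)
    (hα : ∀ i, 0 < α i) (hαβ : ∀ i, α i ≤ β i) (hd : ∀ i j, i ≠ j → β i ≤ α j ∨ β j ≤ α i)
    (hs : ∑ i, β i < 1 + μ) :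
    ∀ᶠ n : ℕ in atTop, (((Icc 1 n).filter (fun l : ℕ =>
      ε * n < |TC α β n l - n * ∏ i, Real.log (β i / α i)|)).card : ℝ) ≤ (n : ℝ) ^ μ := by
  have hβ0 : ∀ i, 0 < β i := fun i => (hα i).trans_le (hαβ i)
  have hβ2 : ∀ i, β i ≤ 2 := by
    intro i
    have := single_le_sum (fun j _ => (hβ0 j).le) (mem_univ i)
    linarith
  obtain ⟨s, hs1, hs2, hs3⟩ : ∃ s : ℝ, 1 ≤ s ∧ ∑ i, β i ≤ s ∧ s < 1 + μ :=
    ⟨max 1 (∑ i, β i), le_max_left _ _, le_max_right _ _, max_lt (by linarith) hs⟩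
  obtain ⟨δ, hδ0, hδ1, hδ2⟩ : ∃ δ : ℝ, 0 < δ ∧ δ ≤ 1 / 100 ∧ 138 * δ + s < 1 + μ := by
    refine ⟨min (1 / 100) ((1 + μ - s) / 139), lt_min (by norm_num) (by linarith), min_le_left _ _, ?_⟩
    have := min_le_right (1 / 100 : ℝ) ((1 + μ - s) / 139)
    linarith
  obtain ⟨η, hη0, hη⟩ := prod_close (fun i => Real.log (β i / α i)) (ε / 2) (by linarith)
  have hM : ∀ i, ∃ N0 : ℕ, ∀ n : ℕ, N0 ≤ n → ∀ l : ℕ, 1 ≤ l → l ≤ n →
      |∑ p ∈ Pn n (α i) (β i), gq l p - Real.log (β i / α i)| ≤ η :=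
    fun i => mer_n (α i) (β i) η (hα i) (hαβ i) (hβ2 i) hη0
  choose NM HM using hM
  obtain ⟨N1, H1⟩ := few_nat δ hδ0 hδ1
  have hXr : Tendsto (fun n : ℕ => (n : ℝ)) atTop atTop := tendsto_natCast_atTop_atTop
  have ev1 : ∀ᶠ n : ℕ in atTop, 2 + 2 / ε ≤ (n : ℝ) ^ δ :=
    ((tendsto_rpow_atTop hδ0).comp hXr).eventually_ge_atTop _
  filter_upwards [ev1, eventually_ge_atTop 2, eventually_ge_atTop N1, eventually_ge_atTop (∑ i, NM i)] with n e1 e2 e3 e4
  have hnr : (2 : ℝ) ≤ n := by exact_mod_cast e2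
  have hn0 : (0 : ℝ) < n := by linarith
  set v : ℝ := (n : ℝ) ^ δ with hv
  have hε2 : 0 < 2 / ε := by positivity
  have hv1 : 1 ≤ v := by linarith
  have hv0 : 0 < v := by linarith
  set P : Fin k → Finset ℕ := fun i => Pn n (α i) (β i) with hP
  set Q : Finset ℕ := univ.biUnion P with hQ
  have hPQ : ∀ i, P i ⊆ Q := fun i => subset_biUnion_of_mem P (mem_univ i)
  have hPm : ∀ i p, p ∈ P i ↔ p.Prime ∧ (n : ℝ) ^ (α i) ≤ p ∧ (p : ℝ) < (n : ℝ) ^ (β i) :=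
    fun i p => mem_Pn n (α i) (β i) e2 (hβ2 i) p
  have hdis : ∀ i j, i ≠ j → Disjoint (P i) (P j) := by
    intro i j hij
    rw [Finset.disjoint_left]
    intro p hp1 hp2
    rw [hPm] at hp1 hp2
    rcases hd i j hij with h | h
    · have h3 := Real.rpow_le_rpow_of_exponent_le (by linarith : (1 : ℝ) ≤ n) h
      linarith [hp1.2.2, hp2.2.1]
    · have h3 := Real.rpow_le_rpow_of_exponent_le (by linarith : (1 : ℝ) ≤ n) h
      linarith [hp2.2.2, hp1.2.1]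
  have hQp : ∀ p ∈ Q, p.Prime := by
    intro p hp
    rw [hQ, mem_biUnion] at hp
    obtain ⟨i, -, hi⟩ := hp
    exact ((hPm i p).1 hi).1
  have hD1 : 1 ≤ (n : ℝ) ^ s := Real.one_le_rpow (by linarith) (by linarith)
  have hD2 : (n : ℝ) ^ s ≤ (n : ℝ) ^ 2 := by
    rw [← Real.rpow_natCast (n : ℝ) 2]
    apply Real.rpow_le_rpow_of_exponent_le (by linarith)
    push_cast
    linarith
  have hfew := H1 n e3 Q (tw P) ((n : ℝ) ^ s) hQp hD1 hD2 (fun T => (tw_abs P hdis T).trans hv1) (by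
    intro T _ hT
    obtain ⟨τ, hτ1, hτ2⟩ := tw_supp P T hT hdis
    rw [hτ2]
    push_cast
    calc ∏ i, (τ i : ℝ) ≤ ∏ i, (n : ℝ) ^ (β i) :=
          prod_le_prod (fun _ _ => Nat.cast_nonneg _) (fun i _ => ((hPm i _).1 (hτ1 i)).2.2.le)
      _ = (n : ℝ) ^ (∑ i, β i) := by
          rw [Real.rpow_sum_of_pos hn0]
      _ ≤ (n : ℝ) ^ s := Real.rpow_le_rpow_of_exponent_le (by linarith) hs2)
  have hfin : 2 * (v ^ 137 * ((n : ℝ) ^ s / n)) ≤ (n : ℝ) ^ μ := by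
    calc 2 * (v ^ 137 * ((n : ℝ) ^ s / n)) ≤ v * (v ^ 137 * ((n : ℝ) ^ s / n)) :=
          mul_le_mul_of_nonneg_right (by linarith) (by positivity)
      _ = (n : ℝ) ^ (138 * δ + s - 1) := by
        have h1 : v ^ 138 = (n : ℝ) ^ (138 * δ) := by
          rw [hv, ← Real.rpow_natCast, ← Real.rpow_mul hn0.le]
          congr 1
          push_cast
          ring
        calc v * (v ^ 137 * ((n : ℝ) ^ s / n)) = v ^ 138 * (n : ℝ) ^ s / n := by ring
          _ = _ := by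
            rw [h1, ← Real.rpow_add hn0, Real.rpow_sub hn0, Real.rpow_one]
      _ ≤ (n : ℝ) ^ μ := Real.rpow_le_rpow_of_exponent_le (by linarith) (by linarith)
  refine le_trans ?_ (hfew.trans hfin)
  apply Nat.cast_le.2
  apply card_le_card
  intro l hl
  rw [mem_filter] at hl ⊢
  refine ⟨hl.1, ?_⟩
  rw [mem_Icc] at hl
  obtain ⟨⟨hl1, hl2⟩, hl3⟩ := hl
  by_contra hcon
  push Not at hcon
  have h1 : ∑ m ∈ Icc 1 n, VV Q (tw P) (dI (m ^ 2 + l ^ 2)) = TC α β n l := by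
    unfold TC
    apply sum_congr rfl
    intro m _
    rw [VV_tw P Q hPQ hdis]
  rw [h1, VV_tw P Q hPQ hdis] at hcon
  have h2 := hη (fun i => ∑ p ∈ P i, gq l p) (fun i => HM i n ((single_le_sum (fun j _ => Nat.zero_le _)
    (mem_univ i)).trans e4) l hl1 hl2)
  have h3 : (n : ℝ) / v ^ 10 ≤ ε / 2 * n := by
    rw [div_le_iff₀ (by positivity)]
    have h4 : 1 ≤ ε / 2 * v := by
      have h5 : 2 / ε ≤ v := by linarith
      rw [div_le_iff₀ hε] at h5
      linarith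
    have h6 : v ≤ v ^ 10 := by
      calc v = v ^ 1 := (pow_one v).symm
        _ ≤ v ^ 10 := pow_le_pow_right₀ hv1 (by norm_num)
    calc (n : ℝ) = 1 * n := (one_mul _).symm
      _ ≤ (ε / 2 * v) * n := mul_le_mul_of_nonneg_right h4 hn0.le
      _ ≤ (ε / 2 * v ^ 10) * n := by
        apply mul_le_mul_of_nonneg_right _ hn0.le
        exact mul_le_mul_of_nonneg_left h6 (by linarith)
      _ = _ := by ring
  have h4 : |TC α β n l - n * ∏ i, Real.log (β i / α i)| ≤ ε * n := by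
    have h5 : TC α β n l - n * ∏ i, Real.log (β i / α i) =
        (TC α β n l - n * ∏ i, ∑ p ∈ P i, gq l p) + n * (∏ i, ∑ p ∈ P i, gq l p - ∏ i, Real.log (β i / α i)) := by
      ring
    rw [h5]
    refine (abs_add_le _ _).trans ?_
    rw [abs_mul n.cast, abs_of_pos hn0]
    have h6 := mul_le_mul_of_nonneg_left h2 hn0.le
    linarith
  linarith

end Pool.Agent.U529.BL
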