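import Pool.Agent.U529.BL.Cnt

/-! The logarithms of the prime factors of the `m ^ 2 + l ^ 2`. -/

set_option autoImplicit false

namespace Pool.Agent.U529.BL

open Finset Filter

open scoped ArithmeticFunction.vonMangoldt

theorem sum_log_le (x : ℕ) (hx : 0 < x) : ∑ p ∈ x.primeFactors, Real.log p ≤ Real.log x := by
  have h1 : ∏ p ∈ x.primeFactors, p ∣ x := Nat.prod_primeFactors_dvd x
  have h2 : ((∏ p ∈ x.primeFactors, p : ℕ) : ℝ) ≤ x := by exact_mod_cast Nat.le_of_dvd hx h1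
  have h3 : (0 : ℝ) < ((∏ p ∈ x.primeFactors, p : ℕ) : ℝ) := by
    have : 0 < ∏ p ∈ x.primeFactors, p := prod_pos (fun p hp => (Nat.prime_of_mem_primeFactors hp).pos)
    exact_mod_cast this
  have h4 := Real.log_le_log h3 h2
  push_cast at h4
  rw [Real.log_prod (fun p hp => by
    have := (Nat.prime_of_mem_primeFactors hp).pos
    positivity)] at h4
  exact h4

/-- the contribution of the squares -/
theorem log_le_sq (x B : ℕ) (hx : 0 < x) (hB : x ≤ B ^ 2) : Real.log x ≤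
    ∑ p ∈ x.primeFactors, Real.log p + 2 * ∑ q ∈ (Icc 1 B).filter (fun q => q ^ 2 ∣ x), Λ q := by
  obtain ⟨a, b, ha, hb, hab, hsq⟩ := Nat.sq_mul_squarefree_of_pos hx
  have hax : a ∣ x := ⟨b ^ 2, by rw [← hab]; ring⟩
  have hbx : b ^ 2 ∣ x := ⟨a, hab.symm⟩
  have h1 : Real.log x = 2 * Real.log b + Real.log a := by
    rw [← hab]
    push_cast
    have ha' : (a : ℝ) ≠ 0 := by exact_mod_cast ha.ne'
    have hb' : (b : ℝ) ≠ 0 := by exact_mod_cast hb.ne'
    rw [Real.log_mul (by positivity) ha', Real.log_pow]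
    push_cast
    ring
  have h2 : Real.log a ≤ ∑ p ∈ x.primeFactors, Real.log p := by
    have h3 : Real.log a = ∑ p ∈ a.primeFactors, Real.log p := by
      conv_lhs => rw [← Nat.prod_primeFactors_of_squarefree hsq]
      push_cast
      rw [Real.log_prod (fun p hp => by
        have := (Nat.prime_of_mem_primeFactors hp).pos
        positivity)]
    rw [h3]
    apply sum_le_sum_of_subset_of_nonneg (Nat.primeFactors_mono hax hx.ne')
    intro p _ _
    exact Real.log_natCast_nonneg p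
  have h3 : Real.log b ≤ ∑ q ∈ (Icc 1 B).filter (fun q => q ^ 2 ∣ x), Λ q := by
    rw [← ArithmeticFunction.vonMangoldt_sum]
    apply sum_le_sum_of_subset_of_nonneg
    · intro q hq
      rw [Nat.mem_divisors] at hq
      rw [mem_filter, mem_Icc]
      have hq0 : 0 < q := Nat.pos_of_dvd_of_pos hq.1 hb
      have h4 : q ^ 2 ∣ x := (pow_dvd_pow_of_dvd hq.1 2).trans hbx
      refine ⟨⟨hq0, ?_⟩, h4⟩
      have h5 : q ^ 2 ≤ B ^ 2 := (Nat.le_of_dvd hx h4).trans hB
      exact (Nat.pow_le_pow_iff_left (by norm_num)).1 h5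
    · intro q _ _
      exact ArithmeticFunction.vonMangoldt_nonneg
  linarith

theorem geo (x : ℝ) (h0 : 0 ≤ x) (h1 : x ≤ 1 / 2) (N : ℕ) : ∑ j ∈ Icc 1 N, x ^ j ≤ 2 * x := by
  rcases Nat.eq_zero_or_pos N with h | h
  · subst h
    simp [h0]
  have h2 : ∑ j ∈ Icc 1 N, x ^ j + x ^ N ≤ 2 * x := by
    induction N, h using Nat.le_induction with
    | base => simp; linarith
    | succ M hM ih =>
      rw [sum_Icc_succ_top (by omega)]
      have h3 : x ^ (M + 1) = x ^ M * x := pow_succ x M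
      have h4 : 0 ≤ x ^ M := by positivity
      nlinarith
  have h3 : 0 ≤ x ^ N := by positivity
  linarith

theorem sum_log_div (l K : ℕ) (hl : 1 ≤ l) (hK : 1 ≤ K) :
    ∑ p ∈ (2 * l).primeFactors, Real.log p / p ≤ K + Real.log (2 * l) / K := by
  have hK0 : (0 : ℝ) < K := by exact_mod_cast hK
  rw [← sum_filter_add_sum_filter_not (2 * l).primeFactors (fun p => p ≤ K)]
  apply add_le_add
  · calc ∑ p ∈ (2 * l).primeFactors.filter (fun p => p ≤ K), Real.log p / p ≤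
          ∑ p ∈ (2 * l).primeFactors.filter (fun p => p ≤ K), (1 : ℝ) := by
          apply sum_le_sum
          intro p hp
          rw [mem_filter] at hp
          have hp0 : (0 : ℝ) < p := by exact_mod_cast (Nat.prime_of_mem_primeFactors hp.1).pos
          rw [div_le_one hp0]
          have := Real.log_le_sub_one_of_pos hp0
          linarith
      _ = (((2 * l).primeFactors.filter (fun p => p ≤ K)).card : ℝ) := by simp
      _ ≤ ((Icc 1 K).card : ℝ) := by
        apply Nat.cast_le.2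
        apply card_le_card
        intro p hp
        rw [mem_filter] at hp
        rw [mem_Icc]
        exact ⟨(Nat.prime_of_mem_primeFactors hp.1).one_le, hp.2⟩
      _ = K := by simp
  · calc ∑ p ∈ (2 * l).primeFactors.filter (fun p => ¬ p ≤ K), Real.log p / p ≤
          ∑ p ∈ (2 * l).primeFactors.filter (fun p => ¬ p ≤ K), Real.log p / K := by
          apply sum_le_sum
          intro p hp
          rw [mem_filter] at hp
          have h1 : (K : ℝ) ≤ p := by exact_mod_cast (not_le.1 hp.2).le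
          exact div_le_div_of_nonneg_left (Real.log_natCast_nonneg p) hK0 h1
      _ ≤ ∑ p ∈ (2 * l).primeFactors, Real.log p / K := by
          apply sum_le_sum_of_subset_of_nonneg (filter_subset _ _)
          intro p _ _
          exact div_nonneg (Real.log_natCast_nonneg p) hK0.le
      _ = (∑ p ∈ (2 * l).primeFactors, Real.log p) / K := by rw [sum_div]
      _ ≤ Real.log (2 * l) / K := by
          apply div_le_div_of_nonneg_right _ hK0.le
          have := sum_log_le (2 * l) (by omega)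
          push_cast at this
          exact this

open Classical in
/-- the prime powers with a factor in common with `2 * l` -/
theorem sum_bad (l K N : ℕ) (hl : 1 ≤ l) (hK : 1 ≤ K) :
    ∑ q ∈ (Icc 1 N).filter (fun q => ¬ Nat.Coprime q (2 * l)), Λ q / q ≤ 2 * (K + Real.log (2 * l) / K) := by
  set S : Finset ℕ := ((Icc 1 N).filter (fun q => ¬ Nat.Coprime q (2 * l))).filter (fun q => IsPrimePow q) with hS
  have h1 : ∑ q ∈ (Icc 1 N).filter (fun q => ¬ Nat.Coprime q (2 * l)), Λ q / q = ∑ q ∈ S, Λ q / q := by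
    symm
    rw [hS]
    apply sum_filter_of_ne
    intro q _ h
    apply ArithmeticFunction.vonMangoldt_ne_zero_iff.1
    intro h0
    rw [h0, zero_div] at h
    exact h rfl
  have hpp : ∀ q ∈ S, ∃ p j : ℕ, p.Prime ∧ 1 ≤ j ∧ j ≤ N ∧ p ^ j = q ∧ p ∣ 2 * l ∧ q.minFac = p ∧
      q.factorization q.minFac = j := by
    intro q hq
    rw [hS, mem_filter, mem_filter, mem_Icc] at hq
    obtain ⟨⟨⟨hq1, hq2⟩, hq3⟩, hq4⟩ := hq
    obtain ⟨p, j, hp, hj, hpj⟩ := (isPrimePow_nat_iff q).1 hq4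
    have h2 : q.minFac = p := by
      rw [← hpj]
      exact Nat.Prime.pow_minFac hp (by omega)
    refine ⟨p, j, hp, hj, ?_, hpj, ?_, h2, ?_⟩
    · have h3 : j < p ^ j := Nat.lt_pow_self hp.one_lt
      omega
    · by_contra hcon
      apply hq3
      rw [← hpj]
      exact Nat.Coprime.pow_left j ((Nat.Prime.coprime_iff_not_dvd hp).2 hcon)
    · rw [h2, ← hpj, hp.factorization_pow]
      simp
  set I : ℕ → ℕ × ℕ := fun q => (q.minFac, q.factorization q.minFac) with hI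
  set g : ℕ × ℕ → ℝ := fun x => Real.log x.1 * (1 / (x.1 : ℝ)) ^ x.2 with hg
  have h2 : ∀ q ∈ S, Λ q / q = g (I q) := by
    intro q hq
    obtain ⟨p, j, hp, hj, -, hpj, -, h3, h4⟩ := hpp q hq
    rw [hg, hI]
    simp only
    rw [h4, h3, ← hpj, ArithmeticFunction.vonMangoldt_apply_pow (by omega),
      ArithmeticFunction.vonMangoldt_apply_prime hp]
    push_cast
    rw [one_div, inv_pow, div_eq_mul_inv]
  have hinj : Set.InjOn I S := by
    intro q hq q' hq' h
    obtain ⟨p, j, hp, hj, -, hpj, -, h3, h4⟩ := hpp q hq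
    obtain ⟨p', j', hp', hj', -, hpj', -, h3', h4'⟩ := hpp q' hq'
    rw [hI] at h
    simp only [Prod.mk.injEq] at h
    rw [h4, h4', h3, h3'] at h
    rw [← hpj, ← hpj', h.1, h.2]
  rw [h1, sum_congr rfl h2, ← sum_image (f := g) hinj]
  have h3 : S.image I ⊆ (2 * l).primeFactors ×ˢ Icc 1 N := by
    intro x hx
    rw [mem_image] at hx
    obtain ⟨q, hq, rfl⟩ := hx
    obtain ⟨p, j, hp, hj, hjN, hpj, hpl, h3, h4⟩ := hpp q hq
    rw [hI, mem_product]
    simp only
    rw [h4, h3]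
    exact ⟨Nat.mem_primeFactors.2 ⟨hp, hpl, by omega⟩, mem_Icc.2 ⟨hj, hjN⟩⟩
  have hg0 : ∀ x, 0 ≤ g x := by
    intro x
    rw [hg]
    have := Real.log_natCast_nonneg x.1
    positivity
  refine (sum_le_sum_of_subset_of_nonneg h3 (fun x _ _ => hg0 x)).trans ?_
  rw [sum_product]
  have h4 : ∀ p ∈ (2 * l).primeFactors, ∑ j ∈ Icc 1 N, g (p, j) ≤ 2 * (Real.log p / p) := by
    intro p hp
    have hp2 : (2 : ℝ) ≤ p := by exact_mod_cast (Nat.prime_of_mem_primeFactors hp).two_le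
    rw [hg]
    simp only
    rw [← mul_sum]
    have h5 := geo (1 / (p : ℝ)) (by positivity) (by
      rw [div_le_div_iff₀ (by linarith) (by norm_num)]
      linarith) N
    calc Real.log p * ∑ j ∈ Icc 1 N, (1 / (p : ℝ)) ^ j ≤ Real.log p * (2 * (1 / p)) :=
          mul_le_mul_of_nonneg_left h5 (Real.log_natCast_nonneg p)
      _ = _ := by ring
  refine (sum_le_sum h4).trans ?_
  rw [← mul_sum]
  exact mul_le_mul_of_nonneg_left (sum_log_div l K hl hK) (by norm_num)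

theorem sum_C1 : ∃ C : ℝ, 0 < C ∧ ∀ N : ℕ, ∑ q ∈ Icc 1 N, Λ q / (q : ℝ) ^ 2 ≤ C := by
  have hs : Summable (fun n : ℕ => (n : ℝ) ^ (-(3 / 2) : ℝ)) := Real.summable_nat_rpow.2 (by norm_num)
  refine ⟨2 * ∑' n : ℕ, (n : ℝ) ^ (-(3 / 2) : ℝ) + 1, ?_, ?_⟩
  · have : 0 ≤ ∑' n : ℕ, (n : ℝ) ^ (-(3 / 2) : ℝ) := tsum_nonneg (fun n => by positivity)
    linarith
  intro N
  have h1 : ∑ q ∈ Icc 1 N, Λ q / (q : ℝ) ^ 2 ≤ ∑ q ∈ Icc 1 N, 2 * (q : ℝ) ^ (-(3 / 2) : ℝ) := by
    apply sum_le_sum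
    intro q hq
    rw [mem_Icc] at hq
    have hq0 : (0 : ℝ) < q := by exact_mod_cast hq.1
    have h2 : Λ q ≤ 2 * (q : ℝ) ^ (1 / 2 : ℝ) := by
      have h3 := Real.log_le_rpow_div hq0.le (by norm_num : (0 : ℝ) < 1 / 2)
      have h4 := ArithmeticFunction.vonMangoldt_le_log (n := q)
      linarith
    have h5 : (q : ℝ) ^ (-(3 / 2) : ℝ) = (q : ℝ) ^ (1 / 2 : ℝ) / (q : ℝ) ^ 2 := by
      rw [← Real.rpow_natCast, ← Real.rpow_sub hq0]
      norm_num
    rw [h5, ← mul_div_assoc]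
    exact div_le_div_of_nonneg_right h2 (by positivity)
  rw [← mul_sum] at h1
  have h2 : ∑ q ∈ Icc 1 N, (q : ℝ) ^ (-(3 / 2) : ℝ) ≤ ∑' n : ℕ, (n : ℝ) ^ (-(3 / 2) : ℝ) :=
    hs.sum_le_tsum _ (fun n _ => by positivity)
  linarith

theorem sum_psi (N : ℕ) : ∑ q ∈ Icc 1 N, Λ q ≤ (Real.log 4 + 4) * N := by
  have h1 := Chebyshev.psi_le_const_mul_self (x := (N : ℝ)) (Nat.cast_nonneg _)
  rw [Chebyshev.psi_eq_sum_Icc, Nat.floor_natCast] at h1
  refine le_trans ?_ h1
  apply sum_le_sum_of_subset_of_nonneg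
  · intro q hq
    rw [mem_Icc] at hq ⊢
    omega
  · intro q _ _
    exact ArithmeticFunction.vonMangoldt_nonneg

/-- **The logarithms of the square parts.** -/
theorem sq_part : ∃ C : ℝ, 0 < C ∧ ∀ n l K : ℕ, 1 ≤ n → 1 ≤ l → 1 ≤ K →
    ∑ m ∈ Icc 1 n, ∑ q ∈ (Icc 1 (2 * n)).filter (fun q => q ^ 2 ∣ m ^ 2 + l ^ 2), Λ q ≤
      n * (C + 4 * (K + Real.log (2 * l) / K)) := by
  classical
  obtain ⟨C1, hC1, H1⟩ := sum_C1
  have hl4 : 0 < Real.log 4 := Real.log_pos (by norm_num)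
  refine ⟨2 * C1 + 4 * (Real.log 4 + 4), by positivity, ?_⟩
  intro n l K hn hl hK
  have hn0 : (0 : ℝ) < n := by exact_mod_cast hn
  have h1 : ∑ m ∈ Icc 1 n, ∑ q ∈ (Icc 1 (2 * n)).filter (fun q => q ^ 2 ∣ m ^ 2 + l ^ 2), Λ q =
      ∑ q ∈ Icc 1 (2 * n), Λ q * Aq n l (q ^ 2) := by
    simp_rw [sum_filter]
    rw [sum_comm]
    apply sum_congr rfl
    intro q _
    unfold Aq
    rw [← sum_filter, sum_const, nsmul_eq_mul, mul_comm]
  rw [h1]
  have h2 : ∀ q ∈ Icc 1 (2 * n), Λ q * Aq n l (q ^ 2) ≤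
      2 * n * (Λ q / (q : ℝ) ^ 2) + 2 * Λ q + (if ¬ Nat.Coprime q (2 * l) then 2 * n * (Λ q / q) else 0) := by
    intro q hq
    rw [mem_Icc] at hq
    have hq0 : (0 : ℝ) < q := by exact_mod_cast hq.1
    by_cases h0 : Λ q = 0
    · rw [h0]
      simp
    obtain ⟨p, j, hp, hj, hpj⟩ := (isPrimePow_nat_iff q).1 (ArithmeticFunction.vonMangoldt_ne_zero_iff.1 h0)
    have hΛ : 0 ≤ Λ q := ArithmeticFunction.vonMangoldt_nonneg
    by_cases hc : Nat.Coprime q (2 * l)
    · rw [if_neg (by rw [not_not]; exact hc), add_zero]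
      have h3 : ¬ p ∣ 2 * l := by
        rw [← Nat.Prime.coprime_iff_not_dvd hp]
        rw [← hpj] at hc
        exact Nat.Coprime.coprime_dvd_left (dvd_pow_self p (by omega)) hc
      have h4 := Aq_cop n l p j hp hj h3
      rw [hpj] at h4
      have h5 : (Aq n l (q ^ 2) : ℝ) ≤ 2 * ((n : ℝ) / ((q ^ 2 : ℕ) : ℝ) + 1) :=
        (Nat.cast_le.2 h4).trans (div_real n (q ^ 2))
      push_cast at h5
      calc Λ q * Aq n l (q ^ 2) ≤ Λ q * (2 * ((n : ℝ) / (q : ℝ) ^ 2 + 1)) := mul_le_mul_of_nonneg_left h5 hΛ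
        _ = _ := by ring
    · rw [if_pos hc]
      have h4 := Aq_sq n l p j hp
      rw [hpj] at h4
      have h5 : (Aq n l (q ^ 2) : ℝ) ≤ 2 * ((n : ℝ) / (q : ℝ) + 1) :=
        (Nat.cast_le.2 h4).trans (div_real n q)
      have h6 : 0 ≤ 2 * (n : ℝ) * (Λ q / (q : ℝ) ^ 2) := by positivity
      calc Λ q * Aq n l (q ^ 2) ≤ Λ q * (2 * ((n : ℝ) / (q : ℝ) + 1)) := mul_le_mul_of_nonneg_left h5 hΛ
        _ = 0 + 2 * Λ q + 2 * n * (Λ q / q) := by ring
        _ ≤ _ := by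
          apply add_le_add_left
          apply add_le_add_left
          exact h6
  refine (sum_le_sum h2).trans ?_
  rw [sum_add_distrib, sum_add_distrib, ← mul_sum, ← mul_sum, ← sum_filter, ← mul_sum]
  have h3 := H1 (2 * n)
  have h4 := sum_psi (2 * n)
  have h5 := sum_bad l K (2 * n) hl hK
  have h6 : 2 * (n : ℝ) * ∑ q ∈ Icc 1 (2 * n), Λ q / (q : ℝ) ^ 2 ≤ 2 * n * C1 :=
    mul_le_mul_of_nonneg_left h3 (by positivity)
  have h7 : 2 * (n : ℝ) * ∑ q ∈ (Icc 1 (2 * n)).filter (fun q => ¬ Nat.Coprime q (2 * l)), Λ q / q ≤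
      2 * n * (2 * (K + Real.log (2 * l) / K)) := mul_le_mul_of_nonneg_left h5 (by positivity)
  push_cast at h4
  calc _ ≤ 2 * n * C1 + 2 * ((Real.log 4 + 4) * (2 * n)) + 2 * n * (2 * (K + Real.log (2 * l) / K)) := by
        linarith
    _ = _ := by ring

theorem sum_log_fact (n : ℕ) : ∑ m ∈ Icc 1 n, Real.log m = Real.log (n.factorial : ℝ) := by
  induction n with
  | zero => simp
  | succ k ih =>
    rw [sum_Icc_succ_top (by omega), ih, Nat.factorial_succ, Nat.cast_mul,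
      Real.log_mul (by positivity) (by positivity), add_comm]

/-- **The lower bound for the sum of the logarithms of the prime factors.** -/
theorem S1_lower (ε : ℝ) (hε : 0 < ε) : ∃ N0 : ℕ, ∀ n : ℕ, N0 ≤ n → ∀ l : ℕ, 1 ≤ l → l ≤ n →
    (2 - ε) * (n * Real.log n) ≤ ∑ m ∈ Icc 1 n, ∑ p ∈ (m ^ 2 + l ^ 2).primeFactors, Real.log p := by
  obtain ⟨C, hC, HC⟩ := sq_part
  obtain ⟨K, hK⟩ := exists_nat_ge (64 / ε + 1)
  have hK1 : 1 ≤ K := by
    have : 0 < 64 / ε := by positivity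
    have h : (1 : ℝ) ≤ K := by linarith
    exact_mod_cast h
  have hK0 : (0 : ℝ) < K := by exact_mod_cast hK1
  have ev : ∀ᶠ n : ℕ in atTop, (2 + 2 * C + 8 * K) * (2 / ε) ≤ Real.log n :=
    (Real.tendsto_log_atTop.comp tendsto_natCast_atTop_atTop).eventually_ge_atTop _
  obtain ⟨N0, H0⟩ := eventually_atTop.1 (ev.and (eventually_ge_atTop 3))
  refine ⟨N0, ?_⟩
  intro n hn l hl hln
  obtain ⟨e1, e3⟩ := H0 n hn
  have hnr : (3 : ℝ) ≤ n := by exact_mod_cast e3
  have hn0 : (0 : ℝ) < n := by linarith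
  have hlr : (1 : ℝ) ≤ l := by exact_mod_cast hl
  have hlnr : (l : ℝ) ≤ n := by exact_mod_cast hln
  have hlog : 0 < Real.log n := Real.log_pos (by linarith)
  have h1 : 2 * ∑ m ∈ Icc 1 n, Real.log m ≤ ∑ m ∈ Icc 1 n, Real.log ((m ^ 2 + l ^ 2 : ℕ) : ℝ) := by
    rw [mul_sum]
    apply sum_le_sum
    intro m hm
    rw [mem_Icc] at hm
    have hm0 : (0 : ℝ) < m := by exact_mod_cast hm.1
    have h2 : 2 * Real.log m = Real.log ((m : ℝ) ^ 2) := by
      rw [Real.log_pow]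
      push_cast
      ring
    rw [h2]
    apply Real.log_le_log (by positivity)
    push_cast
    have : 0 ≤ (l : ℝ) ^ 2 := by positivity
    linarith
  have h2 : ∑ m ∈ Icc 1 n, Real.log m = Real.log (n.factorial : ℝ) := sum_log_fact n
  have h3 : n * Real.log n - n ≤ Real.log (n.factorial : ℝ) := by
    have h4 := Stirling.le_log_factorial_stirling (n := n) (by omega)
    have h5 : 0 ≤ Real.log (2 * Real.pi) := Real.log_nonneg (by linarith [Real.pi_gt_three])
    linarith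
  have h4 : ∑ m ∈ Icc 1 n, Real.log ((m ^ 2 + l ^ 2 : ℕ) : ℝ) ≤
      ∑ m ∈ Icc 1 n, ∑ p ∈ (m ^ 2 + l ^ 2).primeFactors, Real.log p +
        2 * ∑ m ∈ Icc 1 n, ∑ q ∈ (Icc 1 (2 * n)).filter (fun q => q ^ 2 ∣ m ^ 2 + l ^ 2), Λ q := by
    rw [mul_sum, ← sum_add_distrib]
    apply sum_le_sum
    intro m hm
    rw [mem_Icc] at hm
    apply log_le_sq
    · positivity
    · have h5 : m ^ 2 ≤ n ^ 2 := Nat.pow_le_pow_left hm.2 2
      have h6 : l ^ 2 ≤ n ^ 2 := Nat.pow_le_pow_left hln 2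
      have h7 : (2 * n) ^ 2 = 4 * n ^ 2 := by ring
      rw [h7]
      omega
  have h5 := HC n l K (by omega) hl hK1
  have h6 : Real.log (2 * l) ≤ 2 * Real.log n := by
    have h7 : 2 * Real.log n = Real.log ((n : ℝ) ^ 2) := by
      rw [Real.log_pow]
      push_cast
      ring
    rw [h7]
    apply Real.log_le_log (by linarith)
    nlinarith
  have h7 : Real.log (2 * l) / K ≤ ε / 32 * Real.log n := by
    rw [div_le_iff₀ hK0]
    have h8 : 64 / ε ≤ K := by linarith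
    rw [div_le_iff₀ hε] at h8
    have h9 : 2 * Real.log n ≤ (K * ε / 32) * Real.log n :=
      mul_le_mul_of_nonneg_right (by linarith) hlog.le
    calc Real.log (2 * l) ≤ 2 * Real.log n := h6
      _ ≤ (K * ε / 32) * Real.log n := h9
      _ = _ := by ring
  have h8 : (n : ℝ) * (C + 4 * (K + Real.log (2 * l) / K)) ≤ n * (C + 4 * (K + ε / 32 * Real.log n)) := by
    apply mul_le_mul_of_nonneg_left _ hn0.le
    linarith
  have h9 : (2 + 2 * C + 8 * K) ≤ ε / 2 * Real.log n := by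
    have h10 : (2 + 2 * C + 8 * K) * (2 / ε) = (2 + 2 * C + 8 * K) * 2 / ε := by ring
    rw [h10, div_le_iff₀ hε] at e1
    linarith
  have h10 : (n : ℝ) * (2 + 2 * C + 8 * K) ≤ n * (ε / 2 * Real.log n) := mul_le_mul_of_nonneg_left h9 hn0.le
  have h11 : 2 * (n * Real.log n) - 2 * n - 2 * (n * (C + 4 * (K + ε / 32 * Real.log n))) ≤
      ∑ m ∈ Icc 1 n, ∑ p ∈ (m ^ 2 + l ^ 2).primeFactors, Real.log p := by
    rw [h2] at h1
    linarith
  refine le_trans ?_ h11
  have h12 : 2 * ((n : ℝ) * (C + 4 * (K + ε / 32 * Real.log n))) =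
      n * (2 * C + 8 * K) + ε / 4 * (n * Real.log n) := by ring
  have h13 : (n : ℝ) * (ε / 2 * Real.log n) = ε / 2 * (n * Real.log n) := by ring
  have h14 : (n : ℝ) * (2 + 2 * C + 8 * K) = 2 * n + n * (2 * C + 8 * K) := by ring
  have h15 : 0 < ε * (n * Real.log n) := by positivity
  rw [h12]
  rw [h13, h14] at h10
  linarith

end Pool.Agent.U529.BL
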