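import Pool.Agent.U529.BL.Law
import Pool.Agent.U529.BL.Sq
import Pool.Agent.Helper256.KM.Mertens

/-! The sum of the logarithms of the prime factors below `n ^ τ`. -/

set_option autoImplicit false

namespace Pool.Agent.U529.BL

open Finset Filter Topology

open Classical in
/-- at most `n ^ μ` exceptions -/
def FE (μ : ℝ) (P : ℕ → ℕ → Prop) : Prop :=
  ∀ᶠ n : ℕ in atTop, (((Icc 1 n).filter (fun l : ℕ => P n l)).card : ℝ) ≤ (n : ℝ) ^ μ

theorem FE.mono {μ : ℝ} {P Q : ℕ → ℕ → Prop} (hP : FE μ P)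
    (h : ∀ᶠ n : ℕ in atTop, ∀ l : ℕ, 1 ≤ l → l ≤ n → Q n l → P n l) : FE μ Q := by
  classical
  unfold FE at hP ⊢
  filter_upwards [hP, h] with n h1 h2
  refine le_trans ?_ h1
  apply Nat.cast_le.2
  apply card_le_card
  intro l hl
  rw [mem_filter, mem_Icc] at hl ⊢
  exact ⟨hl.1, h2 l hl.1.1 hl.1.2 hl.2⟩

theorem FE.union {μ μ' : ℝ} (hμ : μ' < μ) (M : ℕ) (P : ℕ → ℕ → ℕ → Prop) (hP : ∀ i, i < M → FE μ' (P i)) :
    FE μ (fun n l => ∃ i, i < M ∧ P i n l) := by
  classical
  have h1 : ∀ᶠ n : ℕ in atTop, ∀ i ∈ range M, (((Icc 1 n).filter (fun l : ℕ => P i n l)).card : ℝ) ≤ (n : ℝ) ^ μ' := by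
    rw [eventually_all_finset]
    intro i hi
    have := hP i (mem_range.1 hi)
    unfold FE at this
    convert this
  have h2 : ∀ᶠ n : ℕ in atTop, (M : ℝ) ≤ (n : ℝ) ^ (μ - μ') :=
    ((tendsto_rpow_atTop (by linarith)).comp tendsto_natCast_atTop_atTop).eventually_ge_atTop _
  unfold FE
  filter_upwards [h1, h2, eventually_ge_atTop 1] with n e1 e2 e3
  have hn0 : (0 : ℝ) < n := by exact_mod_cast e3
  have hsub : (Icc 1 n).filter (fun l : ℕ => ∃ i, i < M ∧ P i n l) ⊆
      (range M).biUnion (fun i => (Icc 1 n).filter (fun l : ℕ => P i n l)) := by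
    intro l hl
    rw [mem_filter] at hl
    obtain ⟨h3, i, hi, h4⟩ := hl
    rw [mem_biUnion]
    exact ⟨i, mem_range.2 hi, mem_filter.2 ⟨h3, h4⟩⟩
  have h3 : (((Icc 1 n).filter (fun l : ℕ => ∃ i, i < M ∧ P i n l)).card : ℝ) ≤
      ∑ i ∈ range M, (((Icc 1 n).filter (fun l : ℕ => P i n l)).card : ℝ) := by
    exact_mod_cast (card_le_card hsub).trans card_biUnion_le
  have h4 : (((Icc 1 n).filter (fun l : ℕ => ∃ i, i < M ∧ P i n l)).card : ℝ) ≤ (n : ℝ) ^ μ := by
    calc _ ≤ ∑ i ∈ range M, (((Icc 1 n).filter (fun l : ℕ => P i n l)).card : ℝ) := h3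
      _ ≤ ∑ _i ∈ range M, (n : ℝ) ^ μ' := sum_le_sum e1
      _ = M * (n : ℝ) ^ μ' := by rw [sum_const, card_range, nsmul_eq_mul]
      _ ≤ (n : ℝ) ^ (μ - μ') * (n : ℝ) ^ μ' := mul_le_mul_of_nonneg_right e2 (by positivity)
      _ = (n : ℝ) ^ μ := by
        rw [← Real.rpow_add hn0]
        congr 1
        ring
  convert h4

theorem FE.or {μ μ' : ℝ} (hμ : μ' < μ) {P Q : ℕ → ℕ → Prop} (hP : FE μ' P) (hQ : FE μ' Q) :
    FE μ (fun n l => P n l ∨ Q n l) := by
  have h := FE.union hμ 2 (fun i => if i = 0 then P else Q) (by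
    intro i _
    by_cases h0 : i = 0
    · simp only [h0, if_true]
      exact hP
    · simp only [h0, if_false]
      exact hQ)
  apply h.mono
  filter_upwards with n l _ _ h1
  rcases h1 with h1 | h1
  · exact ⟨0, by norm_num, by simpa using h1⟩
  · exact ⟨1, by norm_num, by simpa using h1⟩

/-- the sum over the primes in `[n ^ a, n ^ b)` of the numbers of the values which they divide -/
noncomputable def T1 (a b : ℝ) (n l : ℕ) : ℝ := ∑ p ∈ Pn n a b, (Aq n l p : ℝ)

theorem Aq_dI (n l p : ℕ) : ∑ m ∈ Icc 1 n, dI (m ^ 2 + l ^ 2) p = (Aq n l p : ℝ) := by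
  classical
  unfold dI Aq
  rw [card_filter]
  push_cast
  rfl

theorem TC_one (a b : ℝ) (n l : ℕ) : TC (fun _ : Fin 1 => a) (fun _ => b) n l = T1 a b n l := by
  unfold TC T1
  simp only [univ_unique, Fin.default_eq_zero, prod_const, card_singleton, pow_one]
  rw [sum_comm]
  exact sum_congr rfl (fun p _ => Aq_dI n l p)

/-- **The law for one prime.** -/
theorem law1 (a b μ ε : ℝ) (hμ0 : 0 < μ) (hμ1 : μ < 1) (hε : 0 < ε) (ha : 0 < a) (hab : a ≤ b) (hb : b < 1 + μ) :
    FE μ (fun n l => ε * n < |T1 a b n l - n * Real.log (b / a)|) := by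
  classical
  have h := law 1 (fun _ => a) (fun _ => b) μ ε hμ0 hμ1 hε (fun _ => ha) (fun _ => hab)
    (fun i j hij => absurd (Subsingleton.elim i j) hij) (by simpa using hb)
  unfold FE
  filter_upwards [h] with n hn
  simp only [TC_one, univ_unique, Fin.default_eq_zero, prod_const, card_singleton, pow_one] at hn
  convert hn

/-- the sum of the logarithms -/
noncomputable def LS (a b : ℝ) (n l : ℕ) : ℝ := ∑ p ∈ Pn n a b, Real.log p * (Aq n l p : ℝ)

theorem Pn_split (a b c : ℝ) (n : ℕ) (hn : 2 ≤ n) (hab : a ≤ b) (hbc : b ≤ c) (hc : c ≤ 2) (f : ℕ → ℝ) :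
    ∑ p ∈ Pn n a c, f p = ∑ p ∈ Pn n a b, f p + ∑ p ∈ Pn n b c, f p := by
  classical
  have hn1 : (1 : ℝ) ≤ n := by exact_mod_cast (by omega : 1 ≤ n)
  have h1 := Real.rpow_le_rpow_of_exponent_le hn1 hab
  have h2 := Real.rpow_le_rpow_of_exponent_le hn1 hbc
  rw [← sum_union]
  · apply sum_congr _ (fun _ _ => rfl)
    ext p
    rw [mem_union, mem_Pn n a c hn hc, mem_Pn n a b hn (hbc.trans hc), mem_Pn n b c hn hc]
    constructor
    · rintro ⟨h3, h4, h5⟩
      rcases lt_or_ge (p : ℝ) ((n : ℝ) ^ b) with h6 | h6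
      · exact Or.inl ⟨h3, h4, h6⟩
      · exact Or.inr ⟨h3, h6, h5⟩
    · rintro (⟨h3, h4, h5⟩ | ⟨h3, h4, h5⟩)
      · exact ⟨h3, h4, h5.trans_le h2⟩
      · exact ⟨h3, h1.trans h4, h5⟩
  · rw [Finset.disjoint_left]
    intro p hp1 hp2
    rw [mem_Pn n a b hn (hbc.trans hc)] at hp1
    rw [mem_Pn n b c hn hc] at hp2
    linarith [hp1.2.2, hp2.2.1]

theorem LS_cells (e h : ℝ) (n l : ℕ) (hn : 2 ≤ n) (hh : 0 ≤ h) (M : ℕ) (hM : e + M * h ≤ 2) :
    LS e (e + M * h) n l = ∑ i ∈ range M, LS (e + i * h) (e + (i + 1 : ℕ) * h) n l := by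
  induction M with
  | zero =>
    unfold LS
    simp only [CharP.cast_eq_zero, zero_mul, add_zero, range_zero, sum_empty]
    have h1 : Pn n e e = ∅ := by
      rw [eq_empty_iff_forall_notMem]
      intro p hp
      rw [mem_Pn n e e hn (by simpa using hM)] at hp
      linarith [hp.2.1, hp.2.2]
    rw [h1, sum_empty]
  | succ k ih =>
    have h1 : e + (k : ℝ) * h ≤ e + ((k + 1 : ℕ) : ℝ) * h := by
      push_cast
      linarith
    have h0 : e ≤ e + (k : ℝ) * h := by
      have : 0 ≤ (k : ℝ) * h := by positivity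
      linarith
    rw [sum_range_succ, ← ih (h1.trans hM)]
    exact Pn_split _ _ _ n hn h0 h1 hM _

/-- one cell -/
theorem cell (a b η : ℝ) (n l : ℕ) (hn : 2 ≤ n) (ha : 0 < a) (hab : a ≤ b) (hb : b ≤ 2)
    (h : |T1 a b n l - n * Real.log (b / a)| ≤ η * n) :
    |LS a b n l - (b - a) * (n * Real.log n)| ≤ ((b - a) ^ 2 / a + 2 * η) * (n * Real.log n) := by
  have hnr : (2 : ℝ) ≤ n := by exact_mod_cast hn
  have hn0 : (0 : ℝ) < n := by linarith
  have hlog : 0 < Real.log n := Real.log_pos (by linarith)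
  have hb0 : 0 < b := by linarith
  have h1 : a * Real.log n * T1 a b n l ≤ LS a b n l := by
    unfold T1 LS
    rw [mul_sum]
    apply sum_le_sum
    intro p hp
    rw [mem_Pn n a b hn hb] at hp
    apply mul_le_mul_of_nonneg_right _ (Nat.cast_nonneg _)
    rw [← Real.log_rpow hn0]
    exact Real.log_le_log (by positivity) hp.2.1
  have h2 : LS a b n l ≤ b * Real.log n * T1 a b n l := by
    unfold T1 LS
    rw [mul_sum]
    apply sum_le_sum
    intro p hp
    rw [mem_Pn n a b hn hb] at hp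
    apply mul_le_mul_of_nonneg_right _ (Nat.cast_nonneg _)
    rw [← Real.log_rpow hn0]
    exact Real.log_le_log (by exact_mod_cast hp.1.pos) hp.2.2.le
  have h3 : Real.log (b / a) ≤ (b - a) / a := by
    have := Real.log_le_sub_one_of_pos (div_pos hb0 ha)
    have h4 : b / a - 1 = (b - a) / a := by field_simp
    linarith
  have h4 : (b - a) / b ≤ Real.log (b / a) := by
    have := Real.one_sub_inv_le_log_of_pos (div_pos hb0 ha)
    have h5 : 1 - (b / a)⁻¹ = (b - a) / b := by
      rw [inv_div]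
      field_simp
    linarith
  obtain ⟨g1, g2⟩ := abs_le.1 h
  have hη : 0 ≤ η := by
    have := (abs_nonneg _).trans h
    by_contra hc
    push Not at hc
    have : η * n < 0 := mul_neg_of_neg_of_pos hc hn0
    linarith
  rw [abs_le]
  constructor
  · have h5 : n * ((b - a) / b - η) ≤ T1 a b n l := by
      have := mul_le_mul_of_nonneg_left h4 hn0.le
      linarith
    have h6 : a * Real.log n * (n * ((b - a) / b - η)) ≤ LS a b n l :=
      (mul_le_mul_of_nonneg_left h5 (by positivity)).trans h1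
    refine le_trans ?_ (sub_le_sub_right h6 _)
    have h7 : a * Real.log n * (n * ((b - a) / b - η)) - (b - a) * (n * Real.log n) =
        (a * ((b - a) / b) - (b - a) - a * η) * (n * Real.log n) := by ring
    rw [h7, ← neg_mul]
    apply mul_le_mul_of_nonneg_right _ (by positivity)
    have h8 : a * ((b - a) / b) - (b - a) = -((b - a) ^ 2 / b) := by
      field_simp
      ring
    rw [h8]
    have h9 : (b - a) ^ 2 / b ≤ (b - a) ^ 2 / a := div_le_div_of_nonneg_left (by positivity) ha hab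
    have h10 : a * η ≤ 2 * η := mul_le_mul_of_nonneg_right (by linarith) hη
    linarith
  · have h5 : T1 a b n l ≤ n * ((b - a) / a + η) := by
      have := mul_le_mul_of_nonneg_left h3 hn0.le
      linarith
    have h6 : LS a b n l ≤ b * Real.log n * (n * ((b - a) / a + η)) :=
      h2.trans (mul_le_mul_of_nonneg_left h5 (by positivity))
    refine (sub_le_sub_right h6 _).trans ?_
    have h7 : b * Real.log n * (n * ((b - a) / a + η)) - (b - a) * (n * Real.log n) =
        (b * ((b - a) / a) - (b - a) + b * η) * (n * Real.log n) := by ring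
    rw [h7]
    apply mul_le_mul_of_nonneg_right _ (by positivity)
    have h8 : b * ((b - a) / a) - (b - a) = (b - a) ^ 2 / a := by
      field_simp
    rw [h8]
    have h10 : b * η ≤ 2 * η := mul_le_mul_of_nonneg_right hb hη
    linarith

/-- the small primes -/
theorem small_p (e : ℝ) (he0 : 0 < e) (he1 : e ≤ 1) : ∃ N0 : ℕ, ∀ n : ℕ, N0 ≤ n → ∀ l : ℕ,
    0 ≤ LS 0 e n l ∧ LS 0 e n l ≤ 4 * e * (n * Real.log n) := by
  classical
  obtain ⟨C, HC⟩ := Pool.Agent.Helper256.KM.mertens_log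
  have ev : ∀ᶠ n : ℕ in atTop, (2 * C + 2 * (Real.log 4 + 4)) * (1 / (2 * e)) ≤ Real.log n :=
    (Real.tendsto_log_atTop.comp tendsto_natCast_atTop_atTop).eventually_ge_atTop _
  obtain ⟨N0, H0⟩ := eventually_atTop.1 (ev.and (eventually_ge_atTop 3))
  refine ⟨N0, ?_⟩
  intro n hn l
  obtain ⟨e1, e3⟩ := H0 n hn
  have hnr : (3 : ℝ) ≤ n := by exact_mod_cast e3
  have hn0 : (0 : ℝ) < n := by linarith
  have hlog : 0 < Real.log n := Real.log_pos (by linarith)
  constructor
  · unfold LS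
    apply sum_nonneg
    intro p _
    exact mul_nonneg (Real.log_natCast_nonneg p) (Nat.cast_nonneg _)
  set M : ℕ := ⌊(n : ℝ) ^ e⌋₊ with hM
  have hne1 : 1 ≤ (n : ℝ) ^ e := Real.one_le_rpow (by linarith) he0.le
  have hM1 : 1 ≤ M := Nat.le_floor (by rw [Nat.cast_one]; exact hne1)
  have hMe : (M : ℝ) ≤ (n : ℝ) ^ e := Nat.floor_le (by positivity)
  have hMn : (M : ℝ) ≤ n := by
    calc (M : ℝ) ≤ (n : ℝ) ^ e := hMe
      _ ≤ (n : ℝ) ^ (1 : ℝ) := Real.rpow_le_rpow_of_exponent_le (by linarith) he1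
      _ = n := Real.rpow_one _
  have hM0 : (0 : ℝ) < M := by exact_mod_cast hM1
  have h1 : Pn n 0 e ⊆ (Icc 1 M).filter Nat.Prime := by
    intro p hp
    rw [mem_Pn n 0 e (by omega) (by linarith)] at hp
    rw [mem_filter, mem_Icc]
    exact ⟨⟨hp.1.one_le, Nat.le_floor hp.2.2.le⟩, hp.1⟩
  have h2 : LS 0 e n l ≤ ∑ p ∈ (Icc 1 M).filter Nat.Prime, (2 * n * (Real.log p / p) + 2 * Real.log p) := by
    unfold LS
    calc ∑ p ∈ Pn n 0 e, Real.log p * (Aq n l p : ℝ) ≤ ∑ p ∈ (Icc 1 M).filter Nat.Prime, Real.log p * (Aq n l p : ℝ) := by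
          apply sum_le_sum_of_subset_of_nonneg h1
          intro p _ _
          exact mul_nonneg (Real.log_natCast_nonneg p) (Nat.cast_nonneg _)
      _ ≤ _ := by
          apply sum_le_sum
          intro p hp
          rw [mem_filter] at hp
          have h3 : (Aq n l p : ℝ) ≤ 2 * ((n : ℝ) / p + 1) :=
            (Nat.cast_le.2 (Aq_prime n l p hp.2)).trans (div_real n p)
          calc Real.log p * (Aq n l p : ℝ) ≤ Real.log p * (2 * ((n : ℝ) / p + 1)) :=
                mul_le_mul_of_nonneg_left h3 (Real.log_natCast_nonneg p)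
            _ = _ := by ring
  rw [sum_add_distrib, ← mul_sum, ← mul_sum] at h2
  have h3 : ∑ p ∈ (Icc 1 M).filter Nat.Prime, Real.log p / p ≤ e * Real.log n + C := by
    have h4 := (abs_le.1 (HC M hM1)).2
    have h5 : Real.log M ≤ e * Real.log n := by
      rw [← Real.log_rpow hn0]
      exact Real.log_le_log hM0 hMe
    linarith
  have h4 : ∑ p ∈ (Icc 1 M).filter Nat.Prime, Real.log p ≤ (Real.log 4 + 4) * n := by
    calc ∑ p ∈ (Icc 1 M).filter Nat.Prime, Real.log p =
          ∑ p ∈ (Icc 1 M).filter Nat.Prime, ArithmeticFunction.vonMangoldt p := by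
          apply sum_congr rfl
          intro p hp
          rw [mem_filter] at hp
          rw [ArithmeticFunction.vonMangoldt_apply_prime hp.2]
      _ ≤ ∑ p ∈ Icc 1 M, ArithmeticFunction.vonMangoldt p := by
          apply sum_le_sum_of_subset_of_nonneg (filter_subset _ _)
          intro p _ _
          exact ArithmeticFunction.vonMangoldt_nonneg
      _ ≤ (Real.log 4 + 4) * M := sum_psi M
      _ ≤ _ := by
          have hl4 : 0 < Real.log 4 := Real.log_pos (by norm_num)
          exact mul_le_mul_of_nonneg_left hMn (by linarith)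
  have h5 : 2 * C + 2 * (Real.log 4 + 4) ≤ 2 * e * Real.log n := by
    rw [mul_one_div, div_le_iff₀ (by linarith)] at e1
    linarith
  have h6 : 2 * (n : ℝ) * ∑ p ∈ (Icc 1 M).filter Nat.Prime, Real.log p / p ≤ 2 * n * (e * Real.log n + C) :=
    mul_le_mul_of_nonneg_left h3 (by linarith)
  have h7 : (n : ℝ) * (2 * C + 2 * (Real.log 4 + 4)) ≤ n * (2 * e * Real.log n) :=
    mul_le_mul_of_nonneg_left h5 hn0.le
  calc LS 0 e n l ≤ 2 * n * (e * Real.log n + C) + 2 * ((Real.log 4 + 4) * n) := by linarith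
    _ = 2 * e * (n * Real.log n) + n * (2 * C + 2 * (Real.log 4 + 4)) := by ring
    _ ≤ 2 * e * (n * Real.log n) + n * (2 * e * Real.log n) := by linarith
    _ = _ := by ring

/-- **The sum of the logarithms of the prime factors below `n ^ τ`.** -/
theorem LS_law (τ μ ε : ℝ) (hμ0 : 0 < μ) (hμ1 : μ < 1) (hε : 0 < ε) (hτ0 : 0 < τ) (hτ : τ < 1 + μ) :
    FE μ (fun n l => ε * (n * Real.log n) < |LS 0 τ n l - τ * (n * Real.log n)|) := by
  obtain ⟨μ', hμ'0, hμ'1, hμ'2⟩ : ∃ μ' : ℝ, 0 < μ' ∧ μ' < μ ∧ τ < 1 + μ' := by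
    refine ⟨max (μ / 2) ((μ + (τ - 1)) / 2), ?_, ?_, ?_⟩
    · exact lt_of_lt_of_le (by linarith) (le_max_left _ _)
    · exact max_lt (by linarith) (by linarith)
    · have := le_max_right (μ / 2) ((μ + (τ - 1)) / 2)
      linarith
  obtain ⟨e, he0, he1, he2, he3⟩ : ∃ e : ℝ, 0 < e ∧ e < τ ∧ e ≤ 1 ∧ e ≤ ε / 16 :=
    ⟨min (τ / 2) (min 1 (ε / 16)), lt_min (by linarith) (lt_min one_pos (by linarith)),
      lt_of_le_of_lt (min_le_left _ _) (by linarith), (min_le_right _ _).trans (min_le_left _ _),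
      (min_le_right _ _).trans (min_le_right _ _)⟩
  obtain ⟨M, hM⟩ := exists_nat_ge (16 / (e * ε) + 1)
  have hM1 : (1 : ℝ) ≤ M := by
    have : 0 < 16 / (e * ε) := by positivity
    linarith
  have hM0 : (0 : ℝ) < M := by linarith
  set h : ℝ := (τ - e) / M with hh
  have hh0 : 0 < h := div_pos (by linarith) hM0
  have hMh : (M : ℝ) * h = τ - e := by
    rw [hh]
    field_simp
  set η : ℝ := ε / (16 * M) with hη
  have hη0 : 0 < η := by positivity
  obtain ⟨N1, H1⟩ := small_p e he0 he2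
  have hcells := FE.union hμ'1 M (fun i n l => η * n < |T1 (e + i * h) (e + (i + 1 : ℕ) * h) n l -
    n * Real.log ((e + (i + 1 : ℕ) * h) / (e + i * h))|) (by
      intro i hi
      have hi0 : 0 ≤ (i : ℝ) * h := by positivity
      have h1 : ((i + 1 : ℕ) : ℝ) * h ≤ M * h :=
        mul_le_mul_of_nonneg_right (by exact_mod_cast hi) hh0.le
      apply law1 _ _ μ' η hμ'0 (by linarith) hη0 (by linarith)
      · push_cast
        linarith
      · linarith)
  apply hcells.mono
  filter_upwards [eventually_ge_atTop 3, eventually_ge_atTop N1] with n e3 e4 l hl1 hl2 hbad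
  by_contra hcon
  push Not at hcon
  have hnr : (3 : ℝ) ≤ n := by exact_mod_cast e3
  have hn0 : (0 : ℝ) < n := by linarith
  have hlog : 0 < Real.log n := Real.log_pos (by linarith)
  set L : ℝ := n * Real.log n with hL
  have hL0 : 0 < L := by positivity
  have hτ2 : τ ≤ 2 := by linarith
  have hsplit : LS 0 τ n l = LS 0 e n l + LS e τ n l := Pn_split 0 e τ n (by omega) he0.le he1.le hτ2 _
  have hc : LS e τ n l = ∑ i ∈ range M, LS (e + i * h) (e + (i + 1 : ℕ) * h) n l := by
    have h1 : τ = e + M * h := by rw [hMh]; ring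
    have h2 := LS_cells e h n l (by omega) hh0.le M (by rw [hMh]; linarith)
    rw [← h1] at h2
    exact h2
  have hcell : |LS e τ n l - (τ - e) * L| ≤ M * ((h ^ 2 / e + 2 * η) * L) := by
    have h1 : LS e τ n l - (τ - e) * L = ∑ i ∈ range M, (LS (e + i * h) (e + (i + 1 : ℕ) * h) n l - h * L) := by
      rw [hc, sum_sub_distrib, sum_const, card_range, nsmul_eq_mul, ← hMh]
      ring
    rw [h1]
    refine (abs_sum_le_sum_abs _ _).trans ?_
    have h2 : ∀ i ∈ range M, |LS (e + i * h) (e + (i + 1 : ℕ) * h) n l - h * L| ≤ (h ^ 2 / e + 2 * η) * L := by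
      intro i hi
      rw [mem_range] at hi
      have hi0 : 0 ≤ (i : ℝ) * h := by positivity
      have h3 : ((i + 1 : ℕ) : ℝ) * h ≤ M * h :=
        mul_le_mul_of_nonneg_right (by exact_mod_cast hi) hh0.le
      have h4 : (e + (i + 1 : ℕ) * h) - (e + i * h) = h := by
        push_cast
        ring
      have h5 := cell (e + i * h) (e + (i + 1 : ℕ) * h) η n l (by omega) (by linarith) (by linarith)
        (by linarith) (hcon i hi)
      rw [h4] at h5
      refine h5.trans ?_
      apply mul_le_mul_of_nonneg_right _ hL0.le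
      have h6 : h ^ 2 / (e + i * h) ≤ h ^ 2 / e := div_le_div_of_nonneg_left (by positivity) he0 (by linarith)
      linarith
    refine (sum_le_sum h2).trans ?_
    rw [sum_const, card_range, nsmul_eq_mul]
  obtain ⟨s1, s2⟩ := H1 n e4 l
  have h1 : (M : ℝ) * (h ^ 2 / e + 2 * η) ≤ 3 / 8 * ε := by
    have h2 : (M : ℝ) * (h ^ 2 / e) ≤ ε / 4 := by
      have h3 : (M : ℝ) * (h ^ 2 / e) = (τ - e) ^ 2 / (M * e) := by
        rw [hh]
        field_simp
      rw [h3, div_le_iff₀ (by positivity)]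
      have h4 : (τ - e) ^ 2 ≤ 4 := by nlinarith
      have h5 : 16 / (e * ε) ≤ M := by linarith
      rw [div_le_iff₀ (by positivity)] at h5
      nlinarith
    have h3 : (M : ℝ) * (2 * η) = ε / 8 := by
      rw [hη]
      field_simp
      ring
    linarith
  have h2 : |LS e τ n l - (τ - e) * L| ≤ 3 / 8 * ε * L := by
    refine hcell.trans ?_
    have := mul_le_mul_of_nonneg_right h1 hL0.le
    linarith
  have h3 : |LS 0 τ n l - τ * L| ≤ ε * L := by
    rw [hsplit]
    obtain ⟨g1, g2⟩ := abs_le.1 h2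
    have h4 : e * L ≤ ε / 16 * L := mul_le_mul_of_nonneg_right he3 hL0.le
    have h5 : 0 ≤ e * L := by positivity
    have h6 : 0 < ε * L := by positivity
    rw [abs_le]
    constructor <;> nlinarith
  linarith

end Pool.Agent.U529.BL
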